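import Pool.Agent.Helper95.AB.AsmX
import Pool.Agent.Helper70.AB.FCB
import Pool.Agent.Helper26.AB.GAM
import Pool.Agent.Helper40.AB.LUB
import Pool.Agent.Helper40.AB.HOLO
import Pool.Agent.Helper93.AB.BDX
import Pool.Agent.Helper93.AB.ETA
import Pool.Agent.Helper68.AB.FCM
import Pool.Agent.Helper39.AB.ITC

/-! # Project AB, module FM, fixed frequencies: final file. -/

noncomputable section

namespace Pool.Agent.Helper95.AB

open Pool.Agent.Helper24.AB Pool.Agent.Helper10.AB

/-- The fixed frequencies. -/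
theorem gfx (hFJ : S_FJA) (hN : S_NRM) (hP : S_PHC) : S_GFX :=
  gfx_of Pool.Agent.Helper70.AB.fcb Pool.Agent.Helper26.AB.gam Pool.Agent.Helper68.AB.fcm
    Pool.Agent.Helper40.AB.lub Pool.Agent.Helper40.AB.holo Pool.Agent.Helper93.AB.bdx
    Pool.Agent.Helper93.AB.eta Pool.Agent.Helper39.AB.itc hFJ hN hP

end Pool.Agent.Helper95.AB
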