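import Pool.Agent.Helper95.AB.GoalsW
import Pool.Agent.Helper89.AB.ID

/-! # Project AB, packets HPOS and HNEG. -/

open MeasureTheory Set Filter Topology
open scoped ContDiff

noncomputable section

namespace Pool.Agent.Helper95.AB

open Pool.Agent.Helper24.AB Pool.Agent.Helper89.AB

/-- the energy density -/
def Gd (Φ : ℂ → ℝ) (φ : ℂ → ℂ) (w : ℂ) : ℝ := gA Φ φ w + lapC Φ w * ‖φ w‖ ^ 2

theorem gA_nonneg (Φ : ℂ → ℝ) (φ : ℂ → ℂ) (w : ℂ) : 0 ≤ gA Φ φ w := by
  unfold gA; positivity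

theorem Gd_integrable {a : ℝ} {Φ : ℂ → ℝ} {φ : ℂ → ℂ} (hΦ : ContDiffOn ℝ ∞ Φ (strip a))
    (hφ : IsTest a φ) : Integrable (Gd Φ φ) := by
  obtain ⟨hφs, hφc, hφK⟩ := hφ
  have hU := isOpen_strip a
  have φU : ContDiffOn ℝ ∞ φ (strip a) := hφs.contDiffOn
  refine integrable_of (a := a) (K := tsupport φ) hφc hφK ?_ ?_
  · have h1 := (cd_dS hU hΦ).continuousOn
    have h2 := (cd_dT hU hΦ).continuousOn
    have h3 := (cd_dS hU φU).continuousOn
    have h4 := (cd_dT hU φU).continuousOn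
    have h5 := (cd_dS hU (cd_dS hU hΦ)).continuousOn
    have h6 := (cd_dT hU (cd_dT hU hΦ)).continuousOn
    have h7 := φU.continuousOn
    have g1 : ContinuousOn (fun w => ((dS Φ w : ℝ) : ℂ)) (strip a) :=
      Complex.continuous_ofReal.comp_continuousOn h1
    have g2 : ContinuousOn (fun w => ((dT Φ w : ℝ) : ℂ)) (strip a) :=
      Complex.continuous_ofReal.comp_continuousOn h2
    unfold Gd gA lapC
    refine ContinuousOn.add (ContinuousOn.add ?_ ?_) ?_
    · exact ((h3.add ((continuousOn_const.mul g2).mul h7)).norm).pow 2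
    · exact ((h4.sub ((continuousOn_const.mul g1).mul h7)).norm).pow 2
    · exact (h5.add h6).mul (h7.norm.pow 2)
  · intro w hw
    have e1 : φ w = 0 := image_eq_zero_of_notMem_tsupport hw
    have e2 : fderiv ℝ φ w = 0 := by
      by_contra h
      exact hw (support_fderiv_subset ℝ h)
    simp [Gd, gA, dS, dT, e1, e2]

theorem sq_integrable {a : ℝ} {φ : ℂ → ℂ} (hφ : IsTest a φ) {m : ℝ → ℝ} (hm : Continuous m) :
    Integrable (fun w => m w.im ^ 2 * ‖φ w‖ ^ 2) := by
  obtain ⟨hφs, hφc, hφK⟩ := hφ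
  refine integrable_of (a := a) (K := tsupport φ) hφc hφK ?_ ?_
  · exact ((((hm.comp Complex.continuous_im).pow 2).mul
      (hφs.continuous.norm.pow 2))).continuousOn
  · intro w hw
    have e1 : φ w = 0 := image_eq_zero_of_notMem_tsupport hw
    simp [e1]

theorem meas_SH (a : ℝ) (k : ℤ) : MeasurableSet (SH a k) := by
  unfold SH
  refine MeasurableSet.inter ?_ (MeasurableSet.inter ?_ ?_)
  · exact measurableSet_lt (Complex.measurable_re.abs) measurable_const
  · exact measurableSet_le measurable_const Complex.measurable_im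
  · exact measurableSet_lt Complex.measurable_im measurable_const

theorem meas_RJ (a : ℝ) (B : BlockData) (j : ℕ) (k : ℤ) : MeasurableSet (RJ a B j k) := by
  unfold RJ
  refine MeasurableSet.inter ?_ (MeasurableSet.inter ?_ ?_)
  · exact measurableSet_lt (Complex.measurable_re.abs) measurable_const
  · exact measurableSet_le measurable_const Complex.measurable_im
  · exact measurableSet_lt Complex.measurable_im measurable_const

theorem floor_sheet (t : ℝ) : ∃ k : ℤ, 2 * Real.pi * k ≤ t ∧ t < 2 * Real.pi * (k + 1) := by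
  refine ⟨⌊t / (2 * Real.pi)⌋, ?_, ?_⟩
  · have h := Int.floor_le (t / (2 * Real.pi))
    rw [le_div_iff₀ (by positivity)] at h
    linarith
  · have h := Int.lt_floor_add_one (t / (2 * Real.pi))
    rw [div_lt_iff₀ (by positivity)] at h
    linarith

theorem strip_eq (a : ℝ) : strip a = ⋃ k : ℤ, SH a k := by
  ext w
  simp only [mem_iUnion]
  constructor
  · intro h
    obtain ⟨k, h1, h2⟩ := floor_sheet w.im
    exact ⟨k, h, h1, h2⟩
  · rintro ⟨k, h, -⟩
    exact h

theorem SH_disj (a : ℝ) : Pairwise (Function.onFun Disjoint (SH a)) := by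
  intro k k' hk
  rw [Function.onFun, Set.disjoint_left]
  rintro w ⟨-, h1, h2⟩ ⟨-, h3, h4⟩
  have hpi := Real.pi_pos
  rcases lt_or_gt_of_ne hk with h | h
  · have : (k : ℝ) + 1 ≤ k' := by exact_mod_cast h
    nlinarith
  · have : (k' : ℝ) + 1 ≤ k := by exact_mod_cast h
    nlinarith

theorem strip_le {a : ℝ} {f g : ℂ → ℝ} (hf : Integrable f) (hg : Integrable g)
    (h : ∀ k : ℤ, ∫ w in SH a k, f w ≤ ∫ w in SH a k, g w) :
    ∫ w in strip a, f w ≤ ∫ w in strip a, g w := by
  rw [strip_eq a]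
  have h1 := hasSum_integral_iUnion (μ := volume) (f := f) (fun k => meas_SH a k) (SH_disj a)
    hf.integrableOn
  have h2 := hasSum_integral_iUnion (μ := volume) (f := g) (fun k => meas_SH a k) (SH_disj a)
    hg.integrableOn
  exact hasSum_le h h1 h2

theorem hpos (hbarr : S_BARR) (hsz : S_SZ) (hder : S_DERL) : S_HPOS := by
  intro a c C L δ₀ ρ₀ S N₁ R K₀ Cl Cχ k1 p B Φ J j ell ψ₁ ha hc hC hCL hP hcurv hr1 hr2 hr3 hJ
    hell hell0 hellb hψ hψb hψs hCR hN₁ hNR hS hSb hid φ hφ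
  have hJ0 : alp J ≠ 0 := hJ.ne'
  have hΦ := hcurv.smooth J hJ0
  have hL1 : 1 ≤ L := hC.trans hCL
  have hR1 : 1 ≤ R := hC.trans hCR
  have hpi := Real.pi_pos
  set Q : ℝ → ℝ := fun t => ell (vF J t ^ 2 / (R * (1 + uF J t))) with hQ
  obtain ⟨hQs, hQb⟩ := (hder ell Cl R J hell hell0 hellb hR1).1 hJ
  have hQs' : ContDiff ℝ ∞ Q := hQs
  have hupos : ∀ t, 0 < uF J t := fun t => by unfold uF uf; positivity
  -- derivative of the weight
  have hdψ : ∀ t, deriv (fun t => S * ψ₁ t + N₁ * ell (vF J t ^ 2 / (R * (1 + uF J t))) + K₀) t =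
      S * deriv ψ₁ t + N₁ * deriv Q t := by
    intro t
    have d1 : HasDerivAt ψ₁ (deriv ψ₁ t) t := (hψ.differentiable (by simp) t).hasDerivAt
    have d2 : HasDerivAt Q (deriv Q t) t := (hQs'.differentiable (by simp) t).hasDerivAt
    exact (((d1.const_mul S).add (d2.const_mul N₁)).add_const K₀).deriv
  have hψc : Continuous (deriv ψ₁) := hψ.continuous_deriv (by simp)
  have hQc : Continuous (deriv Q) := hQs'.continuous_deriv (by simp)
  -- the two parts do not overlap
  have hsplit : ∀ t, (S * deriv ψ₁ t + N₁ * deriv Q t) ^ 2 =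
      (S * deriv ψ₁ t) ^ 2 + (N₁ * deriv Q t) ^ 2 := by
    intro t
    obtain ⟨k, h1, h2⟩ := floor_sheet t
    by_cases hk : GS L B J j k
    · have h3 := (hsz.2.2 L B J j k t hL1 hk h1).2.2.2
      have h4 : deriv Q t = 0 := by
        refine (hQb t).2 (lt_of_lt_of_le h3 ?_)
        have := hupos t
        nlinarith
      rw [h4]; ring
    · rw [(hψs k t h1 h2).1 hk]; ring
  have hG := Gd_integrable hΦ hφ
  have hE1 := sq_integrable hφ (m := fun t => S * deriv ψ₁ t) (by fun_prop)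
  have hE2 := sq_integrable hφ (m := fun t => N₁ * deriv Q t) (by fun_prop)
  have hlap := hcurv.nonneg J hJ0
  have hGn : ∀ w ∈ strip a, 0 ≤ Gd (Φ J) φ w := fun w hw =>
    add_nonneg (gA_nonneg _ _ _) (mul_nonneg (hlap w hw) (by positivity))
  have hms : MeasurableSet (strip a) := (isOpen_strip a).measurableSet
  -- the second part
  have hpt2 : ∀ w ∈ strip a, (N₁ * deriv Q w.im) ^ 2 * ‖φ w‖ ^ 2 ≤ 1 / 128 * Gd (Φ J) φ w := by
    intro w hw
    have hg : 1 / 128 * (lapC (Φ J) w * ‖φ w‖ ^ 2) ≤ 1 / 128 * Gd (Φ J) φ w := by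
      have := gA_nonneg (Φ J) φ w
      unfold Gd; linarith
    refine le_trans ?_ hg
    rcases lt_or_ge (vF J w.im ^ 2) (R * (1 + uF J w.im)) with h | h
    · have h0 : deriv Q w.im = 0 := (hQb w.im).2 h
      rw [h0]
      have := mul_nonneg (hlap w hw) (sq_nonneg ‖φ w‖)
      simp only [mul_zero, ne_eq, OfNat.ofNat_ne_zero, not_false_eq_true, zero_pow, zero_mul]
      linarith
    · have h1 := hcurv.side J hJ w hw R hCR h
      have h2 : (N₁ * deriv Q w.im) ^ 2 ≤ (N₁ * Cl) ^ 2 := by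
        have h3 := (hQb w.im).1
        have h4 : |N₁ * deriv Q w.im| ≤ N₁ * Cl := by
          rw [abs_mul, abs_of_nonneg hN₁]
          exact mul_le_mul_of_nonneg_left h3 hN₁
        rw [← sq_abs (N₁ * deriv Q w.im)]
        exact pow_le_pow_left₀ (abs_nonneg _) h4 2
      have h5 : (N₁ * deriv Q w.im) ^ 2 ≤ 1 / 128 * lapC (Φ J) w := by linarith
      calc (N₁ * deriv Q w.im) ^ 2 * ‖φ w‖ ^ 2 ≤ (1 / 128 * lapC (Φ J) w) * ‖φ w‖ ^ 2 :=
            mul_le_mul_of_nonneg_right h5 (by positivity)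
        _ = _ := by ring
  have hint2 : ∫ w in strip a, (N₁ * deriv Q w.im) ^ 2 * ‖φ w‖ ^ 2 ≤
      ∫ w in strip a, 1 / 128 * Gd (Φ J) φ w :=
    setIntegral_mono_on hE2.integrableOn (hG.const_mul _).integrableOn hms hpt2
  -- the first part
  have hint1 : ∫ w in strip a, (S * deriv ψ₁ w.im) ^ 2 * ‖φ w‖ ^ 2 ≤
      ∫ w in strip a, 1 / 128 * Gd (Φ J) φ w := by
    refine strip_le hE1 (hG.const_mul _) (fun k => ?_)
    have hSHs : SH a k ⊆ strip a := fun w hw => hw.1
    have hnn : 0 ≤ ∫ w in SH a k, 1 / 128 * Gd (Φ J) φ w :=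
      setIntegral_nonneg (meas_SH a k) fun w hw => mul_nonneg (by norm_num) (hGn w (hSHs hw))
    by_cases hk : GS L B J j k
    · have hRS : RJ a B j k ⊆ SH a k := by
        rintro w ⟨h1, h2, h3⟩
        have := hP.tau_pos j
        have := hP.tau_b j
        refine ⟨h1, by linarith, by nlinarith⟩
      set D : ℝ := (S * Cχ / B.b j) ^ 2 with hD
      have hφi : Integrable (fun w => ‖φ w‖ ^ 2) := by
        have := sq_integrable hφ (m := fun _ => 1) continuous_const
        simpa using this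
      have h1 : ∫ w in SH a k, (S * deriv ψ₁ w.im) ^ 2 * ‖φ w‖ ^ 2 ≤
          ∫ w in SH a k, (RJ a B j k).indicator (fun w => D * ‖φ w‖ ^ 2) w := by
        refine setIntegral_mono_on hE1.integrableOn
          (((hφi.const_mul D).indicator (meas_RJ a B j k)).integrableOn) (meas_SH a k) ?_
        intro w hw
        by_cases hwR : w ∈ RJ a B j k
        · rw [indicator_of_mem hwR]
          refine mul_le_mul_of_nonneg_right ?_ (by positivity)
          have h3 := hψb w.im
          have h4 : |S * deriv ψ₁ w.im| ≤ S * Cχ / B.b j := by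
            rw [abs_mul, abs_of_nonneg hS, mul_div_assoc]
            exact mul_le_mul_of_nonneg_left h3 hS
          rw [← sq_abs (S * deriv ψ₁ w.im)]
          exact pow_le_pow_left₀ (abs_nonneg _) h4 2
        · rw [indicator_of_notMem hwR]
          have h5 : w.im < 2 * Real.pi * k + B.tau j ∨ 2 * Real.pi * k + B.tau j + B.b j ≤ w.im := by
            by_contra hcon
            push Not at hcon
            exact hwR ⟨hw.1, hcon.1, hcon.2⟩
          rw [(hψs k w.im hw.2.1 hw.2.2).2 h5]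
          simp
      have h2 : ∫ w in SH a k, (RJ a B j k).indicator (fun w => D * ‖φ w‖ ^ 2) w =
          D * ∫ w in RJ a B j k, ‖φ w‖ ^ 2 := by
        rw [setIntegral_indicator (meas_RJ a B j k), inter_eq_right.2 hRS, integral_const_mul]
      have h3 := hbarr a c C L δ₀ ρ₀ k1 p B Φ J j k φ ha hc hC hCL hP hcurv hr1 hr2 hr3 hk hφ
      have hGR : 0 ≤ ∫ w in RJ a B j k, Gd (Φ J) φ w :=
        setIntegral_nonneg (meas_RJ a B j k) fun w hw => hGn w (hSHs (hRS hw))
      have h4 : ∫ w in RJ a B j k, Gd (Φ J) φ w ≤ ∫ w in SH a k, Gd (Φ J) φ w :=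
        setIntegral_mono_set hG.integrableOn
          ((ae_restrict_iff' (meas_SH a k)).2 (Eventually.of_forall fun w hw => hGn w (hSHs hw)))
          (Eventually.of_forall hRS)
      have hDn : 0 ≤ D := by positivity
      calc ∫ w in SH a k, (S * deriv ψ₁ w.im) ^ 2 * ‖φ w‖ ^ 2
          ≤ D * ∫ w in RJ a B j k, ‖φ w‖ ^ 2 := h1.trans_eq h2
        _ ≤ D * (Cb c * B.rho j ^ 2 * ∫ w in RJ a B j k, Gd (Φ J) φ w) :=
            mul_le_mul_of_nonneg_left h3 hDn
        _ = (D * (Cb c * B.rho j ^ 2)) * ∫ w in RJ a B j k, Gd (Φ J) φ w := by ring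
        _ ≤ 1 / 128 * ∫ w in RJ a B j k, Gd (Φ J) φ w :=
            mul_le_mul_of_nonneg_right (by linarith) hGR
        _ ≤ 1 / 128 * ∫ w in SH a k, Gd (Φ J) φ w :=
            mul_le_mul_of_nonneg_left h4 (by norm_num)
        _ = _ := by rw [integral_const_mul]
    · have h0 : ∫ w in SH a k, (S * deriv ψ₁ w.im) ^ 2 * ‖φ w‖ ^ 2 = 0 := by
        refine setIntegral_eq_zero_of_forall_eq_zero fun w hw => ?_
        rw [(hψs k w.im hw.2.1 hw.2.2).1 hk]
        simp
      rw [h0]; exact hnn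
  have hid' := hid a (Φ J) hΦ φ hφ
  calc ∫ w in strip a, (deriv (fun t => S * ψ₁ t + N₁ * ell (vF J t ^ 2 / (R * (1 + uF J t))) + K₀)
          w.im) ^ 2 * ‖φ w‖ ^ 2
      = ∫ w in strip a, ((S * deriv ψ₁ w.im) ^ 2 * ‖φ w‖ ^ 2 +
          (N₁ * deriv Q w.im) ^ 2 * ‖φ w‖ ^ 2) := by
        congr 1
        funext w
        rw [hdψ, hsplit]; ring
    _ = (∫ w in strip a, (S * deriv ψ₁ w.im) ^ 2 * ‖φ w‖ ^ 2) +
          ∫ w in strip a, (N₁ * deriv Q w.im) ^ 2 * ‖φ w‖ ^ 2 :=
        integral_add hE1.integrableOn hE2.integrableOn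
    _ ≤ (∫ w in strip a, 1 / 128 * Gd (Φ J) φ w) + ∫ w in strip a, 1 / 128 * Gd (Φ J) φ w :=
        add_le_add hint1 hint2
    _ = 1 / 64 * ∫ w in strip a, Gd (Φ J) φ w := by rw [integral_const_mul]; ring
    _ = 1 / 16 * ∫ w in strip a, ‖Dop (Φ J) φ w‖ ^ 2 := by
        rw [hid']
        unfold Gd
        ring

end Pool.Agent.Helper95.AB
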