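import Pool.Agent.Helper95.AB.AsmW
import Pool.Agent.Helper95.AB.HPOS
import Pool.Agent.Helper82.AB.L2
import Pool.Agent.Helper50.AB.ANN
import Pool.Agent.Helper93.AB.SPREAD
import Pool.Agent.Helper34.AB.CELLA
import Pool.Agent.Helper60.AB.GAUSS
import Pool.Agent.Helper74.AB.HNEG
import Pool.Agent.Helper51.AB.SZ
import Pool.Agent.Helper90.AB.CELLB
import Pool.Agent.Helper13.AB.BARR
import Pool.Agent.Helper62.AB.CELL
import Pool.Agent.Helper72.AB.PSI1
import Pool.Agent.Helper5.AB.ELL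
import Pool.Agent.Helper26.AB.WNEG
import Pool.Agent.Helper29.AB.LK
import Pool.Agent.Helper71.AB.WPOS
import Pool.Agent.Helper81.AB.SHIFT
import Pool.Agent.Helper81.AB.DERL
import Pool.Agent.Helper68.AB.STAIR

/-! # Project AB, modules BAR and WT: final file. -/

noncomputable section

namespace Pool.Agent.Helper95.AB

open Pool.Agent.Helper24.AB

theorem s_cell : S_CELL :=
  Pool.Agent.Helper62.AB.cell
    (Pool.Agent.Helper34.AB.cella
      (Pool.Agent.Helper50.AB.ann Pool.Agent.Helper82.AB.hardy Pool.Agent.Helper60.AB.gauss)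
      (Pool.Agent.Helper93.AB.spread Pool.Agent.Helper82.AB.l2))
    (Pool.Agent.Helper90.AB.cellb Pool.Agent.Helper82.AB.l2)
    Pool.Agent.Helper29.AB.lk Pool.Agent.Helper51.AB.sz

theorem s_barr : S_BARR := Pool.Agent.Helper13.AB.barr s_cell Pool.Agent.Helper51.AB.sz

theorem s_wb0 : S_WB0 := Pool.Agent.Helper81.AB.wb0

/-- **Modules BAR and WT.** -/
theorem wt : S_WT :=
  wt_of Pool.Agent.Helper89.AB.id Pool.Agent.Helper5.AB.ell Pool.Agent.Helper72.AB.Psi.psi1
    Pool.Agent.Helper81.AB.derl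
    (hpos s_barr Pool.Agent.Helper51.AB.sz Pool.Agent.Helper81.AB.derl)
    (Pool.Agent.Helper74.AB.hneg Pool.Agent.Helper81.AB.derl)
    (Pool.Agent.Helper68.AB.stair Pool.Agent.Helper81.AB.cntk)
    Pool.Agent.Helper71.AB.WPOS.wpos Pool.Agent.Helper26.AB.wneg Pool.Agent.Helper81.AB.wb0

/-- The weights exist, given the two curvature facts of module PHI. -/
theorem wtf (h1 : S_PHI1) (h2 : S_PHI2) : S_WTF := wtf_of wt h1 h2

end Pool.Agent.Helper95.AB
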