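import Pool.Agent.Helper95.AB.GoalsW

/-! # Project AB, modules BAR and WT: the assembly of `S_WT`. -/

open MeasureTheory Set Filter Topology
open scoped ContDiff

noncomputable section

namespace Pool.Agent.Helper95.AB

open Pool.Agent.Helper24.AB

theorem lam_gt : 1 < lam := by
  unfold lam
  have : (0:ℝ) ≤ Real.sqrt 5 := Real.sqrt_nonneg 5
  linarith

theorem loglam_pos : 0 < Real.log lam := Real.log_pos lam_gt

theorem WF_two (J : Fin 3 → ℤ) (t : ℝ) : 2 ≤ WF J t := by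
  unfold WF WJ Wf
  have h1 := abs_nonneg (uf (alp J) t)
  have h2 := abs_nonneg (vf (alp' J) t)
  have h3 := abs_nonneg (J 2 : ℝ)
  linarith

theorem logMJ_nonneg (J : Fin 3 → ℤ) : 0 ≤ Real.log (MJ J) := by
  apply Real.log_nonneg
  unfold MJ
  have h1 := abs_nonneg (alp J * alp' J)
  have h2 := sq_nonneg (J 2 : ℝ)
  linarith

/-- the sheet of `t` -/
theorem sheet (t : ℝ) : ∃ k : ℤ, 2 * Real.pi * k ≤ t ∧ t < 2 * Real.pi * (k + 1) := by
  refine ⟨⌊t / (2 * Real.pi)⌋, ?_, ?_⟩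
  · have h := Int.floor_le (t / (2 * Real.pi))
    have hp : 0 < 2 * Real.pi := by positivity
    rw [le_div_iff₀ hp] at h
    linarith
  · have h := Int.lt_floor_add_one (t / (2 * Real.pi))
    have hp : 0 < 2 * Real.pi := by positivity
    rw [div_lt_iff₀ hp] at h
    linarith

theorem wt_of (hid : S_ID) (hell : S_ELL) (hpsi : S_PSI1) (hder : S_DERL) (hpos : S_HPOS)
    (hneg : S_HNEG) (hst : S_STAIR) (hwp : S_WPOS) (hwn : S_WNEG) (hb : S_WB0) : S_WT := by
  intro a c C k1 ha ha2 hc hC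
  obtain ⟨ell, Cl, hCl, hel1, hel2, hel3, hel4, hel5, hel6⟩ := hell
  obtain ⟨Cχ, hCχ, hpsi⟩ := hpsi
  have hC0 : 0 < C := by linarith
  refine ⟨min 1 (Real.sqrt (Real.pi / 20 / C)), by positivity, ?_⟩
  intro δ₀ p B Φ hp hΦ N
  -- the parameters
  obtain ⟨R, hR1, hRC, hRp, hRn⟩ : ∃ R : ℝ, 1 ≤ R ∧ C ≤ R ∧
      128 * ((N : ℝ) * Cl) ^ 2 ≤ c * Real.sqrt R ∧
      256 * ((N : ℝ) * Cl) ^ 2 ≤ c * Real.sqrt R - C := by
    set A : ℝ := (256 * ((N : ℝ) * Cl) ^ 2 + C) / c with hA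
    have hA0 : 0 ≤ A := by positivity
    refine ⟨A ^ 2 + C, by nlinarith [sq_nonneg A], by nlinarith [sq_nonneg A], ?_, ?_⟩
    · have h1 : A ≤ Real.sqrt (A ^ 2 + C) := Real.le_sqrt_of_sq_le (by linarith)
      have h2 : c * A = 256 * ((N : ℝ) * Cl) ^ 2 + C := by rw [hA]; field_simp
      have h3 : c * A ≤ c * Real.sqrt (A ^ 2 + C) := by gcongr
      nlinarith [sq_nonneg ((N : ℝ) * Cl)]
    · have h1 : A ≤ Real.sqrt (A ^ 2 + C) := Real.le_sqrt_of_sq_le (by linarith)
      have h2 : c * A = 256 * ((N : ℝ) * Cl) ^ 2 + C := by rw [hA]; field_simp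
      have h3 : c * A ≤ c * Real.sqrt (A ^ 2 + C) := by gcongr
      linarith
  have hCb : 1 ≤ Cb c := by
    unfold Cb
    have : 0 ≤ 100 / c := by positivity
    linarith
  have hCb0 : 0 < Cb c := by linarith
  obtain ⟨j, hj⟩ : ∃ j : ℕ, 100 * N * Real.log lam * (128 * Cb c * Cχ) ≤ 2 ^ j := by
    obtain ⟨j, hj⟩ := pow_unbounded_of_one_lt (100 * N * Real.log lam * (128 * Cb c * Cχ))
      (by norm_num : (1:ℝ) < 2)
    exact ⟨j, hj.le⟩
  have hrj := hp.rho_pos j
  have hbj := hp.b_pos j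
  have hrat := hp.ratio j
  have hrle := hp.rho_le j
  set S : ℝ := B.b j / (128 * Cb c * Cχ * B.rho j) with hS
  have hCχ0 : 0 < Cχ := by linarith
  have hS0 : 0 ≤ S := by positivity
  have hSN : 100 * N * Real.log lam ≤ S := by
    rw [hS, le_div_iff₀ (by positivity)]
    have h1 : 2 ^ j * B.rho j ≤ B.b j := by rwa [le_div_iff₀ hrj] at hrat
    calc 100 * N * Real.log lam * (128 * Cb c * Cχ * B.rho j)
        = (100 * N * Real.log lam * (128 * Cb c * Cχ)) * B.rho j := by ring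
      _ ≤ 2 ^ j * B.rho j := by gcongr
      _ ≤ _ := h1
  have hSb : 128 * (S * Cχ / B.b j) ^ 2 * (Cb c * B.rho j ^ 2) ≤ 1 := by
    have h1 : S * Cχ / B.b j = 1 / (128 * Cb c * B.rho j) := by
      rw [hS]; field_simp
    rw [h1]
    have h2 : 128 * (1 / (128 * Cb c * B.rho j)) ^ 2 * (Cb c * B.rho j ^ 2) = 1 / (128 * Cb c) := by
      field_simp
    rw [h2, div_le_one (by positivity)]
    linarith
  have hr1 : B.rho j ≤ 1 := hrle.trans (min_le_left _ _)
  have hr3 : C * B.rho j ^ 2 ≤ Real.pi / 20 := by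
    have h1 : B.rho j ≤ Real.sqrt (Real.pi / 20 / C) := hrle.trans (min_le_right _ _)
    have h2 : B.rho j ^ 2 ≤ Real.pi / 20 / C := by
      rw [← Real.sq_sqrt (show (0:ℝ) ≤ Real.pi / 20 / C by positivity)]
      gcongr
    rw [le_div_iff₀ hC0] at h2
    linarith
  set L : ℝ := C + (C + 1 / B.rho j ^ 2) / c with hL
  have hLC : C ≤ L := by rw [hL]; have : 0 ≤ (C + 1 / B.rho j ^ 2) / c := by positivity
                         linarith
  have hL1 : 1 ≤ L := hC.trans hLC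
  have hL2 : 1 / B.rho j ^ 2 ≤ c * L - C := by
    have h1 : c * L = c * C + (C + 1 / B.rho j ^ 2) := by rw [hL]; field_simp
    rw [h1]
    have : 0 ≤ c * C := by positivity
    linarith
  obtain ⟨C₃, hC₃, hst⟩ := hst L B j hL1 (hp.eps_NR j)
  obtain ⟨N₂, Cw, N', hN₂, hwp⟩ := hwp N S R C₃ ell hR1 hC₃ hS0 hSN hel2 (fun x hx => (hel3 x hx).1)
    hel4 hel5
  obtain ⟨Cv, N'', hwn⟩ := hwn N R ell hR1 hel2 (fun x hx => (hel3 x hx).1) hel4 hel5
  refine ⟨max Cw Cv, max N' N'', ?_⟩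
  rintro ⟨J, hJ⟩
  have hW1 : ∀ t, (1:ℝ) ≤ WF J t := fun t => by linarith [WF_two J t]
  have hne := (hb.1 ⟨J, hJ⟩).1
  rcases lt_or_gt_of_ne hne with h | h
  · -- `α < 0`
    refine ⟨fun t => N * (ell (uF J t ^ 2 / R) + ell (vF J t ^ 2 / R)) + N * Real.log (MJ J), ?_, ?_,
      ?_, ?_, ?_⟩
    · obtain ⟨-, ⟨h1, -⟩, ⟨h2, -⟩⟩ := hder ell Cl R J hel1 hel3 hel6 hR1
      exact ((contDiff_const.mul (h1.add h2)).add contDiff_const)
    · intro t
      have h1 := hel2 (uF J t ^ 2 / R)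
      have h2 := hel2 (vF J t ^ 2 / R)
      have h3 := logMJ_nonneg J
      positivity
    · obtain ⟨-, ⟨h1, h1'⟩, ⟨h2, h2'⟩⟩ := hder ell Cl R J hel1 hel3 hel6 hR1
      refine ⟨N * (Cl + Cl), fun t => ?_⟩
      have d1 : DifferentiableAt ℝ (fun t => ell (uF J t ^ 2 / R)) t := (h1.differentiable (by simp)) t
      have d2 : DifferentiableAt ℝ (fun t => ell (vF J t ^ 2 / R)) t := (h2.differentiable (by simp)) t
      have e : deriv (fun t => (N:ℝ) * (ell (uF J t ^ 2 / R) + ell (vF J t ^ 2 / R)) +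
          N * Real.log (MJ J)) t = N * (deriv (fun t => ell (uF J t ^ 2 / R)) t +
          deriv (fun t => ell (vF J t ^ 2 / R)) t) := by
        have := (((d1.hasDerivAt.add d2.hasDerivAt).const_mul (N:ℝ)).add_const
          ((N:ℝ) * Real.log (MJ J))).deriv
        exact this
      rw [e, abs_mul, Nat.abs_cast]
      have := abs_add_le (deriv (fun t => ell (uF J t ^ 2 / R)) t) (deriv (fun t => ell (vF J t ^ 2 / R)) t)
      have q1 := (h1' t).1
      have q2 := (h2' t).1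
      gcongr
      linarith
    · exact hneg a c C N R _ Cl k1 p Φ J ell ha hc hC hΦ h hel1 hel3 hel6 hR1 (Nat.cast_nonneg N)
        hRn hid
    · intro t
      obtain ⟨h1, h2⟩ := hwn J t
      constructor
      · refine h1.trans ?_
        gcongr
        exact le_max_right _ _
      · refine h2.trans ?_
        have hCv : 0 ≤ Cv := by
          by_contra hcon
          push Not at hcon
          have : Cv * WF J t ^ N'' < 0 := mul_neg_of_neg_of_pos hcon (by have := hW1 t; positivity)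
          have := Real.exp_pos (N * (ell (uF J t ^ 2 / R) + ell (vF J t ^ 2 / R)) + N * Real.log (MJ J))
          linarith
        calc Cv * WF J t ^ N'' ≤ max Cw Cv * WF J t ^ N'' := by
              have := hW1 t
              gcongr
              exact le_max_right _ _
          _ ≤ max Cw Cv * WF J t ^ (max N' N'') := by
              have hm : 0 ≤ max Cw Cv := hCv.trans (le_max_right _ _)
              exact mul_le_mul_of_nonneg_left (pow_le_pow_right₀ (hW1 t) (le_max_right _ _)) hm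
  · -- `α > 0`
    have h' : 0 < alp J := h
    obtain ⟨k₀, hk₀, hstJ⟩ := hst ⟨J, hJ⟩ h'
    obtain ⟨ψ₁, hψ1, hψ2, hψ3⟩ := hpsi {k | GS L B J j k} k₀ (B.tau j) (B.b j) hk₀ (hp.tau_pos j)
      hbj (hp.tau_b j)
    obtain ⟨⟨e1, e2⟩, -, -⟩ := (hder ell Cl R J hel1 hel3 hel6 hR1).imp_left (fun f => f h')
    have hy : ∀ t, 0 ≤ ψ₁ t ∧
        (100 * Real.log lam)⁻¹ * Real.log (uF J t) - C₃ * Real.log (MJ J) ≤ ψ₁ t ∧
        ψ₁ t ≤ Real.log (WF J t) / Real.log lam + 2 := by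
      intro t
      obtain ⟨k, hk1, hk2⟩ := sheet t
      obtain ⟨-, -, q3, q4⟩ := hψ3 k t hk1 hk2
      obtain ⟨r1, r2⟩ := hstJ k t hk1 hk2
      exact ⟨le_trans (Nat.cast_nonneg _) q3, r1.trans q3, q4.trans r2⟩
    refine ⟨fun t => S * ψ₁ t + N * ell (vF J t ^ 2 / (R * (1 + uF J t))) + N₂ * Real.log (MJ J),
      ?_, ?_, ?_, ?_, ?_⟩
    · exact ((contDiff_const.mul hψ1).add (contDiff_const.mul e1)).add contDiff_const
    · intro t
      have h1 := hel2 (vF J t ^ 2 / (R * (1 + uF J t)))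
      have h2 := (hy t).1
      have h3 := logMJ_nonneg J
      positivity
    · refine ⟨S * (Cχ / B.b j) + N * Cl, fun t => ?_⟩
      have d1 : DifferentiableAt ℝ ψ₁ t := (hψ1.differentiable (by simp)) t
      have d2 : DifferentiableAt ℝ (fun t => ell (vF J t ^ 2 / (R * (1 + uF J t)))) t :=
        (e1.differentiable (by simp)) t
      have e : deriv (fun t => S * ψ₁ t + N * ell (vF J t ^ 2 / (R * (1 + uF J t))) +
          N₂ * Real.log (MJ J)) t = S * deriv ψ₁ t +
          N * deriv (fun t => ell (vF J t ^ 2 / (R * (1 + uF J t)))) t := by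
        exact (((d1.hasDerivAt.const_mul S).add (d2.hasDerivAt.const_mul (N:ℝ))).add_const
          (N₂ * Real.log (MJ J))).deriv
      rw [e]
      refine (abs_add_le _ _).trans ?_
      rw [abs_mul, abs_mul, Nat.abs_cast, abs_of_nonneg hS0]
      have q1 := hψ2 t
      have q2 := (e2 t).1
      gcongr
    · exact hpos a c C L δ₀ _ S N R _ Cl Cχ k1 p B Φ J j ell ψ₁ ha hc hC hLC hp hΦ hr1 hr3 hL2 h'
        hel1 hel3 hel6 hψ1 hψ2 (fun k t hk1 hk2 => ⟨(hψ3 k t hk1 hk2).1, (hψ3 k t hk1 hk2).2.1⟩) hRC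
        (Nat.cast_nonneg N) hRp hS0 hSb hid
    · intro t
      obtain ⟨y1, y2, y3⟩ := hy t
      obtain ⟨h1, h2⟩ := hwp ⟨J, hJ⟩ t (ψ₁ t) h' y1 y2 y3
      constructor
      · refine h1.trans ?_
        gcongr
        exact le_max_left _ _
      · refine h2.trans ?_
        have hCw : 0 ≤ Cw := by
          by_contra hcon
          push Not at hcon
          have : Cw * WF J t ^ N' < 0 := mul_neg_of_neg_of_pos hcon (by have := hW1 t; positivity)
          have := Real.exp_pos (S * ψ₁ t + N * ell (vF J t ^ 2 / (R * (1 + uF J t))) +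
            N₂ * Real.log (MJ J))
          linarith
        calc Cw * WF J t ^ N' ≤ max Cw Cv * WF J t ^ N' := by
              have := hW1 t
              gcongr
              exact le_max_left _ _
          _ ≤ max Cw Cv * WF J t ^ (max N' N'') := by
              have hm : 0 ≤ max Cw Cv := hCw.trans (le_max_left _ _)
              exact mul_le_mul_of_nonneg_left (pow_le_pow_right₀ (hW1 t) (le_max_left _ _)) hm

/-- **The interface `S_WTF` of Defs2.** -/
theorem wtf_of (hwt : S_WT) (h1 : S_PHI1) (h2 : S_PHI2) : S_WTF := by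
  intro a A s hs
  obtain ⟨c, C, hc, hC, h1⟩ := h1 a A s hs
  set c' : ℝ := min c (1 / (1 + C)) with hc'
  have hc'0 : 0 < c' := by positivity
  set C' : ℝ := C + 1 with hC'
  obtain ⟨ρ₀, hρ₀, hwt⟩ := hwt a c' C' (kone A s) hs.a_pos hs.a_le hc'0 (by linarith)
  refine ⟨ρ₀, hρ₀, fun δ₀ p B hδ hp => ?_⟩
  refine hwt δ₀ p B (PhiJ a A s p) hp ?_
  have hlap : ∀ J : Fin 3 → ℤ, alp J ≠ 0 → ∀ w ∈ strip a,
      lapC (PhiJ a A s p J) w = alp J * lapC p w +
        lapC (Phi0 a A s (alp J) (alp' J) (J 2)) w ∧ 0 ≤ lapC (PhiJ a A s p J) w := by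
    intro J hJ w hw
    exact (h2 a A δ₀ ρ₀ s p B hs hp hδ (alp J) (alp' J) (J 2) hJ).2.2 w hw
  have hps : ∀ w ∈ strip a, 0 ≤ lapC p w ∧ lapC p w ≤ δ₀ * Real.exp (kap * w.im) := by
    intro w hw
    have ha := hs.a_pos
    have hw' : w ∈ strip (3 * a / 2) := by
      have : |w.re| < a := hw
      show |w.re| < 3 * a / 2
      linarith
    exact ⟨hp.p2 w hw', (hp.p3 w hw').2.2⟩
  have hWnn : ∀ J t, 0 ≤ WF J t := fun J t => by linarith [WF_two J t]
  refine ⟨?_, ?_, ?_, ?_, ?_, ?_, ?_, ?_, ?_⟩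
  · intro J hJ
    exact (h2 a A δ₀ ρ₀ s p B hs hp hδ (alp J) (alp' J) (J 2) hJ).2.1
  · have hsm := hs.smooth
    have ho : IsOpen (Ioo (-a) a) := isOpen_Ioo
    have d1 : ContDiffOn ℝ ∞ (deriv s) (Ioo (-a) a) := hsm.deriv_of_isOpen ho (by simp)
    have d2 : ContDiffOn ℝ ∞ (deriv (deriv s)) (Ioo (-a) a) := d1.deriv_of_isOpen ho (by simp)
    have : ContinuousOn (fun x => -(deriv (deriv s) x + kap ^ 2 * s x + kap ^ 2 * A)) (Ioo (-a) a) :=
      ((d2.continuousOn.add (continuousOn_const.mul hsm.continuousOn)).add continuousOn_const).neg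
    exact this
  · intro x hx
    have hw : (x : ℂ) ∈ strip a := by
      show |(x : ℂ).re| < a
      rw [Complex.ofReal_re, abs_lt]; exact hx
    simpa using (h1 1 0 0 one_ne_zero (x : ℂ) hw).2.1
  · intro J hJ w hw
    exact (hlap J hJ w hw).2
  · intro J hJ w hw
    obtain ⟨e, -⟩ := hlap J hJ.ne' w hw
    have := (h1 (alp J) (alp' J) (J 2) hJ.ne' w hw).1
    rw [e]; linarith
  · intro J hJ w hw hwr hsz
    obtain ⟨e, -⟩ := hlap J hJ.ne' w hw
    obtain ⟨v1, v2, -, -, -, v6⟩ := h1 (alp J) (alp' J) (J 2) hJ.ne' w hw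
    have hg : 0 ≤ gf (alp' J) (J 2) w.im := by unfold gf; positivity
    have hsz' : 1 + gf (alp' J) (J 2) w.im ≤ uf (alp J) w.im := by
      have h3 : C' * (1 + gf (alp' J) (J 2) w.im) ≤ uf (alp J) w.im := hsz
      have h4 : 1 * (1 + gf (alp' J) (J 2) w.im) ≤ C' * (1 + gf (alp' J) (J 2) w.im) := by
        gcongr; linarith
      linarith
    have hu : 0 ≤ uf (alp J) w.im := by linarith
    have h6 := abs_le.mp (v6 hJ hwr hsz')
    have e' : lapC (PhiJ a A s p J) w - alp J * lapC p w =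
        lapC (Phi0 a A s (alp J) (alp' J) (J 2)) w := by rw [e]; ring
    rw [e']
    show c' * uf (alp J) w.im * kone A s w.re ≤ _ ∧ _ ≤ uf (alp J) w.im * kone A s w.re + C'
    set V := lapC (Phi0 a A s (alp J) (alp' J) (J 2)) w
    set x := kone A s w.re * uf (alp J) w.im with hx
    have hx0 : 0 ≤ x := mul_nonneg v2 hu
    constructor
    · have h7 : c' * uf (alp J) w.im * kone A s w.re = c' * x := by rw [hx]; ring
      rw [h7]
      have h8 : c' * x ≤ 1 / (1 + C) * x := by gcongr; exact min_le_right _ _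
      refine h8.trans ?_
      rw [div_mul_eq_mul_div, one_mul, div_le_iff₀ (by linarith)]
      nlinarith [h6.1, mul_nonneg hC.le (sub_nonneg.mpr v1)]
    · have h7 : uf (alp J) w.im * kone A s w.re = x := by rw [hx]; ring
      rw [h7]; linarith [h6.2]
  · intro J hJ w hw
    obtain ⟨e, -⟩ := hlap J hJ.ne w hw
    obtain ⟨-, -, v3, -, -, -⟩ := h1 (alp J) (alp' J) (J 2) hJ.ne w hw
    obtain ⟨-, v3⟩ := v3 hJ
    obtain ⟨p1, p2⟩ := hps w hw
    have hE : 0 < Real.exp (kap * w.im) := Real.exp_pos _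
    have hu : |uf (alp J) w.im| = -alp J * Real.exp (kap * w.im) := by
      unfold uf; rw [abs_mul, abs_of_neg hJ, abs_of_pos hE]
    have h5 : -(kap ^ 2 * A / 4 * |uf (alp J) w.im|) ≤ alp J * lapC p w := by
      rw [hu]
      have h6 : lapC p w ≤ kap ^ 2 * A / 4 * Real.exp (kap * w.im) := by
        refine p2.trans ?_; gcongr
      nlinarith
    have h7 : c' * WF J w.im ≤ c * WF J w.im := by
      have := hWnn J w.im
      gcongr; exact min_le_left _ _
    have h8 : WF J w.im = Wf (alp J) (alp' J) (J 2) w.im := rfl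
    rw [e]; rw [h8] at h7 ⊢; linarith
  · intro J hJ w hw hwr
    obtain ⟨e, -⟩ := hlap J hJ.ne' w hw
    obtain ⟨-, -, -, v4, -, -⟩ := h1 (alp J) (alp' J) (J 2) hJ.ne' w hw
    have v4 := v4 hJ hwr
    obtain ⟨p1, p2⟩ := hps w hw
    have h5 : 0 ≤ alp J * lapC p w := mul_nonneg hJ.le p1
    have h7 : c' * WF J w.im ≤ c * WF J w.im := by
      have := hWnn J w.im
      gcongr; exact min_le_left _ _
    have h8 : WF J w.im = Wf (alp J) (alp' J) (J 2) w.im := rfl
    rw [e]; rw [h8] at h7 ⊢; linarith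
  · intro J hJ w hw R hR hv
    obtain ⟨e, -⟩ := hlap J hJ.ne' w hw
    obtain ⟨-, -, -, -, v5, -⟩ := h1 (alp J) (alp' J) (J 2) hJ.ne' w hw
    have v5 := v5 hJ R (by linarith) hv
    obtain ⟨p1, p2⟩ := hps w hw
    have h5 : 0 ≤ alp J * lapC p w := mul_nonneg hJ.le p1
    have h7 : c' * Real.sqrt R ≤ c * Real.sqrt R := by gcongr; exact min_le_left _ _
    rw [e]; linarith

end Pool.Agent.Helper95.AB
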