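import Pool.Agent.Helper95.AB.GoalsX

/-! # Project AB, module FM, fixed frequencies: assembly of `S_GFX`. -/

open MeasureTheory Set Filter Topology
open scoped ContDiff

noncomputable section

namespace Pool.Agent.Helper95.AB

open Pool.Agent.Helper24.AB Pool.Agent.Helper10.AB

theorem X_isOpen_strip (a : ℝ) : IsOpen (strip a) := by
  have : strip a = (fun w : ℂ => |w.re|) ⁻¹' Iio a := rfl
  rw [this]
  exact (Complex.continuous_re.abs).isOpen_preimage _ isOpen_Iio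

theorem mem_Ioo_iff {a σ : ℝ} : σ ∈ Ioo (-a) a ↔ |σ| < a := by
  rw [mem_Ioo, abs_lt]

theorem rhon_pos (φ : ℝ → ℝ) (n : ℤ) (σ : ℝ) : 0 < rhon φ n σ := Real.exp_pos _

theorem rhon_cont {a : ℝ} {φ : ℝ → ℝ} (h : ContinuousOn φ (Ioo (-a) a)) (n : ℤ) :
    ContinuousOn (rhon φ n) (Ioo (-a) a) := by
  unfold rhon
  exact Real.continuous_exp.comp_continuousOn ((continuousOn_const.mul continuousOn_id).sub h)

theorem shift_pt (σ t : ℝ) : (⟨σ, t⟩ : ℂ) + 2 * Real.pi * Complex.I = ⟨σ, t + 2 * Real.pi⟩ := by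
  apply Complex.ext <;> simp

theorem fc_bound (hF : S_FCB) {a : ℝ} {φ : ℝ → ℝ} {F : ℂ → ℂ} (h : FXD a φ F) {k : ℕ} {M : ℝ}
    (hM : ∀ σ t, |σ| < a → ‖iteratedDeriv k (fun t : ℝ => F ⟨σ, t⟩) t‖ ≤ M) (n : ℤ) {σ : ℝ}
    (hσ : |σ| < a) : |(n : ℝ)| ^ k * ‖fc F n σ‖ ≤ M :=
  (hF (fun t => F ⟨σ, t⟩) (h.smooth σ hσ) (fun t => by
    rw [← shift_pt]; exact h.per _ hσ)).1 k M (fun t => hM σ t hσ) n

theorem cn_bound (hF : S_FCB) (hG : S_GAM) (hM : S_FCM) {a : ℝ} (ha : 0 < a) {φ : ℝ → ℝ}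
    {F : ℂ → ℂ} (h : FXD a φ F) {k : ℕ} {M : ℝ}
    (hb : ∀ σ t, |σ| < a → ‖iteratedDeriv k (fun t : ℝ => F ⟨σ, t⟩) t‖ ≤ M) (n : ℤ) :
    |(n : ℝ)| ^ (2 * k) * (‖cn a φ F n‖ ^ 2 * wn a φ n) ≤ 2 * a * M ^ 2 := by
  have hfc := fun σ (hσ : |σ| < a) => fc_bound hF h hb n hσ
  rcases (pow_nonneg (abs_nonneg (n : ℝ)) k).eq_or_lt with h0 | h0
  · have : |(n : ℝ)| ^ (2 * k) = 0 := by
      rw [mul_comm, pow_mul, ← h0]; simp
    rw [this, zero_mul]
    positivity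
  · have h1 := (hG a (M / |(n : ℝ)| ^ k) (rhon φ n) (fc F n) ha (rhon_cont h.cont n)
      (fun x _ => rhon_pos φ n x) (h.int n) (hM a F ha h.meas n) (fun x hx => by
        rw [le_div_iff₀ h0, mul_comm]
        exact hfc x (mem_Ioo_iff.1 hx))).2.1
    have h2 : |(n : ℝ)| ^ (2 * k) = (|(n : ℝ)| ^ k) ^ 2 := by rw [← pow_mul, mul_comm]
    rw [h2]
    calc (|(n : ℝ)| ^ k) ^ 2 * (‖cn a φ F n‖ ^ 2 * wn a φ n)
        ≤ (|(n : ℝ)| ^ k) ^ 2 * (2 * a * (M / |(n : ℝ)| ^ k) ^ 2) :=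
          mul_le_mul_of_nonneg_left h1 (by positivity)
      _ = 2 * a * M ^ 2 := by field_simp

theorem one_add_pow_le (x : ℝ) (hx : 0 ≤ x) (m : ℕ) : (1 + x) ^ m ≤ 2 ^ m * (1 + x ^ m) := by
  rcases le_total x 1 with h | h
  · calc (1 + x) ^ m ≤ 2 ^ m := pow_le_pow_left₀ (by linarith) (by linarith) m
      _ ≤ 2 ^ m * (1 + x ^ m) := le_mul_of_one_le_right (by positivity) (by
          have := pow_nonneg hx m
          linarith)
  · calc (1 + x) ^ m ≤ (2 * x) ^ m := pow_le_pow_left₀ (by linarith) (by linarith) m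
      _ = 2 ^ m * x ^ m := mul_pow _ _ _
      _ ≤ 2 ^ m * (1 + x ^ m) := mul_le_mul_of_nonneg_left (by linarith) (by positivity)

theorem cn_growth (hF : S_FCB) (hG : S_GAM) (hM : S_FCM) (hL : S_LUB) {a : ℝ} (ha : 0 < a)
    {φ : ℝ → ℝ} {F : ℂ → ℂ} (h : FXD a φ F) (b : ℝ) (hb : 0 < b) (hba : b < a) (j : ℕ) :
    ∃ C : ℝ, ∀ (n : ℤ) (σ : ℝ), |σ| ≤ b →
      ‖cn a φ F n‖ * Real.exp (n * σ) * (1 + |(n : ℝ)|) ^ j ≤ C := by
  obtain ⟨C, hC, hCb⟩ := hL a b φ hb hba h.cont h.int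
  obtain ⟨M0, hM0⟩ := h.bd 0
  obtain ⟨M1, hM1⟩ := h.bd j
  refine ⟨Real.sqrt (C * (2 ^ (2 * j) * (2 * a * M0 ^ 2 + 2 * a * M1 ^ 2))), fun n σ hσ => ?_⟩
  apply Real.le_sqrt_of_sq_le
  have h0 := cn_bound hF hG hM ha h hM0 n
  have h1 := cn_bound hF hG hM ha h hM1 n
  rw [mul_zero, pow_zero, one_mul] at h0
  have h2 := hCb n σ hσ
  have hwn : 0 ≤ wn a φ n := setIntegral_nonneg measurableSet_Ioo fun x _ => by positivity
  have h3 : (1 + |(n : ℝ)|) ^ (2 * j) ≤ 2 ^ (2 * j) * (1 + |(n : ℝ)| ^ (2 * j)) :=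
    one_add_pow_le _ (abs_nonneg _) _
  have hcw : 0 ≤ ‖cn a φ F n‖ ^ 2 * wn a φ n := by positivity
  calc (‖cn a φ F n‖ * Real.exp (n * σ) * (1 + |(n : ℝ)|) ^ j) ^ 2
      = ‖cn a φ F n‖ ^ 2 * Real.exp (n * σ) ^ 2 * (1 + |(n : ℝ)|) ^ (2 * j) := by
        rw [mul_pow, mul_pow, ← pow_mul, mul_comm j 2]
    _ ≤ ‖cn a φ F n‖ ^ 2 * (C * wn a φ n) * (1 + |(n : ℝ)|) ^ (2 * j) := by
        gcongr
    _ = C * ((‖cn a φ F n‖ ^ 2 * wn a φ n) * (1 + |(n : ℝ)|) ^ (2 * j)) := by ring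
    _ ≤ C * ((‖cn a φ F n‖ ^ 2 * wn a φ n) * (2 ^ (2 * j) * (1 + |(n : ℝ)| ^ (2 * j)))) := by
        gcongr
    _ = C * (2 ^ (2 * j) * (‖cn a φ F n‖ ^ 2 * wn a φ n +
          |(n : ℝ)| ^ (2 * j) * (‖cn a φ F n‖ ^ 2 * wn a φ n))) := by ring
    _ ≤ C * (2 ^ (2 * j) * (2 * a * M0 ^ 2 + 2 * a * M1 ^ 2)) := by gcongr

theorem deriv_iter_cont {a : ℝ} {g : ℂ → ℂ} (hg : DifferentiableOn ℂ g (strip a)) (k : ℕ) :
    DifferentiableOn ℂ (deriv^[k] g) (strip a) := by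
  induction k with
  | zero => exact hg
  | succ k ih =>
    rw [Function.iterate_succ_apply']
    exact ih.deriv (X_isOpen_strip a)

/-- the three conclusions of the abstract problem -/
theorem fx_hol (hF : S_FCB) (hG : S_GAM) (hM : S_FCM) (hL : S_LUB) (hH : S_HOLO) {a : ℝ}
    (ha : 0 < a) {φ : ℝ → ℝ} {F : ℂ → ℂ} (h : FXD a φ F) :
    DifferentiableOn ℂ (gser (cn a φ F)) (strip a) ∧
    (∀ w, gser (cn a φ F) (w + 2 * Real.pi * Complex.I) = gser (cn a φ F) w) ∧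
    ∀ (k : ℕ), ∀ w ∈ strip a,
      HasSum (fun n : ℤ => cn a φ F n * (n : ℂ) ^ k * Complex.exp (n * w))
        (deriv^[k] (gser (cn a φ F)) w) :=
  hH a _ ha (cn_growth hF hG hM hL ha h)

theorem fx_bound (hF : S_FCB) (hG : S_GAM) (hM : S_FCM) (hL : S_LUB) (hH : S_HOLO) (hB : S_BDX)
    {a : ℝ} (ha : 0 < a) (k : ℕ) {T : ℝ} (hT : 0 < T) : ∃ C : ℝ, 0 ≤ C ∧
    ∀ (φ : ℝ → ℝ) (F : ℂ → ℂ) (M0 M1 : ℝ), FXD a φ F →
      (∀ σ t, |σ| < a → ‖iteratedDeriv 0 (fun t : ℝ => F ⟨σ, t⟩) t‖ ≤ M0) →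
      (∀ σ t, |σ| < a → ‖iteratedDeriv (k + 2) (fun t : ℝ => F ⟨σ, t⟩) t‖ ≤ M1) →
      IntegrableOn (fun w : ℂ => (Real.exp (-(φ w.re)) * ‖deriv^[k] (gser (cn a φ F)) w‖) ^ 2)
        (SB a T) ∧
      ∫ w in SB a T, (Real.exp (-(φ w.re)) * ‖deriv^[k] (gser (cn a φ F)) w‖) ^ 2 ≤
        C * (M0 ^ 2 + M1 ^ 2) := by
  obtain ⟨C, hC, hCB⟩ := hB a k T ha hT
  refine ⟨C, hC, fun φ F M0 M1 h h0 h1 => ?_⟩
  obtain ⟨g1, g2, g3⟩ := fx_hol hF hG hM hL hH ha h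
  refine hCB φ (cn a φ F) _ M0 M1 h.cont h.int (deriv_iter_cont g1 k).continuousOn (g3 k) ?_ ?_
  · intro n
    have := cn_bound hF hG hM ha h h0 n
    rwa [mul_zero, pow_zero, one_mul] at this
  · intro n
    have := cn_bound hF hG hM ha h h1 n
    rwa [show 2 * (k + 2) = 2 * k + 4 by ring] at this

theorem summable_b : Summable (fun n : ℤ => (1 : ℝ) / (1 + |(n : ℝ)|) ^ 2) := by
  have h1 : Summable (fun n : ℤ => 1 / (n : ℝ) ^ 2) := Real.summable_one_div_int_pow.2 (by norm_num)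
  have h2 : Summable (fun n : ℤ => if n = 0 then (1 : ℝ) else 0) :=
    (hasSum_ite_eq (0 : ℤ) (1 : ℝ)).summable
  refine Summable.of_nonneg_of_le (fun n => by positivity) (fun n => ?_) (h1.add h2)
  by_cases hn : n = 0
  · simp [hn]
  · simp only [hn, if_false, add_zero]
    have h3 : (0 : ℝ) < (n : ℝ) ^ 2 := by positivity
    apply one_div_le_one_div_of_le h3
    rw [← sq_abs (n : ℝ)]
    have := abs_nonneg (n : ℝ)
    nlinarith

theorem fc_decay (hF : S_FCB) {a : ℝ} {φ : ℝ → ℝ} {F : ℂ → ℂ} (h : FXD a φ F) :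
    ∃ K : ℝ, 0 ≤ K ∧ ∀ (n : ℤ) (σ : ℝ), |σ| < a → ‖fc F n σ‖ ≤ K * (1 / (1 + |(n : ℝ)|) ^ 2) := by
  obtain ⟨M0, hM0⟩ := h.bd 0
  obtain ⟨M1, hM1⟩ := h.bd 2
  refine ⟨4 * (|M0| + |M1|), by positivity, fun n σ hσ => ?_⟩
  have h0 := fc_bound hF h hM0 n hσ
  have h1 := fc_bound hF h hM1 n hσ
  rw [pow_zero, one_mul] at h0
  rw [mul_one_div, le_div_iff₀ (by positivity)]
  have h3 := one_add_pow_le _ (abs_nonneg (n : ℝ)) 2
  have h4 := le_abs_self M0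
  have h5 := le_abs_self M1
  calc ‖fc F n σ‖ * (1 + |(n : ℝ)|) ^ 2 ≤ ‖fc F n σ‖ * (2 ^ 2 * (1 + |(n : ℝ)| ^ 2)) := by gcongr
    _ = 4 * (‖fc F n σ‖ + |(n : ℝ)| ^ 2 * ‖fc F n σ‖) := by ring
    _ ≤ 4 * (|M0| + |M1|) := by gcongr <;> linarith

theorem fx_orth (hF : S_FCB) (hG : S_GAM) (hM : S_FCM) (hL : S_LUB) (hH : S_HOLO) (hE : S_ETA)
    (hI : S_ITC) {a : ℝ} (ha : 0 < a) {φ : ℝ → ℝ} {F : ℂ → ℂ} (h : FXD a φ F) (q : ℂ → ℂ)
    (hq : DifferentiableOn ℂ q (strip a))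
    (hqp : ∀ w ∈ strip a, q (w + 2 * Real.pi * Complex.I) = q w)
    (hqm : MemLp (fun w => (Real.exp (-(φ w.re)) : ℂ) * q w) 2 (volume.restrict (cell a))) :
    ∫ w in cell a, (F w - (Real.exp (-(φ w.re)) : ℂ) * gser (cn a φ F) w) *
      (starRingEnd ℂ) ((Real.exp (-(φ w.re)) : ℂ) * q w) = 0 := by
  obtain ⟨g1, g2, g3⟩ := fx_hol hF hG hM hL hH ha h
  obtain ⟨K, hK0, hK⟩ := fc_decay hF h
  have hGn := fun n : ℤ => hG a (K * (1 / (1 + |(n : ℝ)|) ^ 2)) (rhon φ n) (fc F n) ha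
    (rhon_cont h.cont n) (fun x _ => rhon_pos φ n x) (h.int n) (hM a F ha h.meas n)
    (fun x hx => hK n x (mem_Ioo_iff.1 hx))
  refine hI a _ _ (fun n σ => fc F n σ - cn a φ F n * (rhon φ n σ : ℂ))
    (fun n => Real.sqrt (2 * a) * (K * (1 / (1 + |(n : ℝ)|) ^ 2))) ha ?_ ?_ ?_ ?_ ?_ hqm ?_
  · intro w hw
    have e1 := (hF (fun t => F ⟨w.re, t⟩) (h.smooth w.re hw) (fun t => by
      rw [← shift_pt]; exact h.per _ hw)).2 w.im
    have e2 := (g3 0 w hw).mul_left (Real.exp (-(φ w.re)) : ℂ)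
    have e3 := e1.sub e2
    have e4 : (fun n : ℤ => (fc F n w.re - cn a φ F n * (rhon φ n w.re : ℂ)) *
        Complex.exp (Complex.I * n * w.im)) = fun n : ℤ =>
        fcu (fun t => F ⟨w.re, t⟩) n * Complex.exp (Complex.I * n * w.im) -
          (Real.exp (-(φ w.re)) : ℂ) * (cn a φ F n * (n : ℂ) ^ 0 * Complex.exp (n * w)) := by
      funext n
      have e5 : (rhon φ n w.re : ℂ) * Complex.exp (Complex.I * n * w.im) =
          (Real.exp (-(φ w.re)) : ℂ) * Complex.exp (n * w) := by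
        unfold rhon
        rw [Complex.ofReal_exp, Complex.ofReal_exp, ← Complex.exp_add, ← Complex.exp_add]
        congr 1
        have hw' : (n : ℂ) * w = n * ((w.re : ℂ) + w.im * Complex.I) := by
          rw [Complex.re_add_im]
        rw [hw']
        push_cast
        ring
      rw [pow_zero, mul_one, sub_mul, mul_assoc (cn a φ F n), e5]
      unfold fc
      ring
    rw [e4]
    exact e3
  · intro n
    exact (hM a F ha h.meas n).sub ((Complex.continuous_ofReal.comp_continuousOn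
      (rhon_cont h.cont n)).aestronglyMeasurable measurableSet_Ioo |>.const_mul _)
  · intro n; positivity
  · exact (summable_b.mul_left K).mul_left _
  · intro n
    refine ⟨(hGn n).2.2.2.1, (hGn n).2.2.2.2.trans_eq ?_⟩
    rw [mul_pow (Real.sqrt (2 * a)), Real.sq_sqrt (by positivity)]
  · intro n
    obtain ⟨η, hη⟩ := hE a q ha hq hqp n
    have e1 : ∀ σ ∈ Ioo (-a) a,
        fc (fun w : ℂ => (Real.exp (-(φ w.re)) : ℂ) * q w) n σ = η * (rhon φ n σ : ℂ) := by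
      intro σ hσ
      have e2 : fc (fun w : ℂ => (Real.exp (-(φ w.re)) : ℂ) * q w) n σ =
          (Real.exp (-(φ σ)) : ℂ) * fc q n σ := by
        unfold fc fcu
        simp only [mul_assoc]
        rw [intervalIntegral.integral_const_mul]
        ring
      rw [e2, hη σ (mem_Ioo_iff.1 hσ)]
      unfold rhon
      rw [sub_eq_add_neg, Real.exp_add]
      push_cast
      ring
    have e3 : ∫ σ in Ioo (-a) a, (fc F n σ - cn a φ F n * (rhon φ n σ : ℂ)) *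
        (starRingEnd ℂ) (fc (fun w : ℂ => (Real.exp (-(φ w.re)) : ℂ) * q w) n σ) =
        ∫ σ in Ioo (-a) a, (starRingEnd ℂ) η * ((fc F n σ - cn a φ F n * (rhon φ n σ : ℂ)) *
          (rhon φ n σ : ℂ)) := by
      refine setIntegral_congr_fun measurableSet_Ioo fun σ hσ => ?_
      rw [e1 σ hσ, map_mul, Complex.conj_ofReal]
      ring
    rw [e3, integral_const_mul]
    have e4 := (hGn n).2.2.1
    unfold cn
    rw [e4, mul_zero]

/-! ## The interface `S_GFX` -/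

theorem K0_alp {J : Fin 3 → ℤ} (hJ : J ∈ K0) : alp J = 0 ∧ alp' J = 0 := by
  obtain ⟨h0, h1⟩ := hJ
  constructor
  · simp [alp, h0, h1]
  · simp [alp', h0, h1]

theorem K0_Jn {J : Fin 3 → ℤ} (hJ : J ∈ K0) : Jn J = J := by
  obtain ⟨h0, h1⟩ := hJ
  funext i
  fin_cases i <;> simp [Jn, h0, h1]

theorem K0_WJ {J : Fin 3 → ℤ} (hJ : J ∈ K0) (t : ℝ) : WJ J t = 2 + |(J 2 : ℝ)| := by
  obtain ⟨h0, h1⟩ := K0_alp hJ
  simp [WJ, Wf, uf, vf, h0, h1]

theorem K0_nJ {J : Fin 3 → ℤ} (hJ : J ∈ K0) : nJ J = 1 + |(J 2 : ℝ)| := by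
  obtain ⟨h0, h1⟩ := hJ
  simp [nJ, h0, h1]

/-- `φ_J(σ) = Φ_J(σ)` -/
def phK (a A : ℝ) (s : ℝ → ℝ) (p : ℂ → ℝ) (J : Fin 3 → ℤ) (σ : ℝ) : ℝ :=
  PhiJ a A s p J (σ : ℂ)

theorem K0_FXD {a A δ₀ ρ₀ : ℝ} {s : ℝ → ℝ} {p : ℂ → ℝ} {B : BlockData} (hD : Dat a A δ₀ ρ₀ s p B)
    (hFJ : S_FJA) (hN : S_NRM) (hP : S_PHC) {f : V4 → ℂ}
    (hf : ContDiffOn ℝ ∞ f (closure (Omt a A s p))) (hfi : GamInv (closure (Omt a A s p)) f)
    {J : Fin 3 → ℤ} (hJ : J ∈ K0) :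
    FXD a (phK a A s p J) (FJ a A s p f J) := by
  obtain ⟨f1, f2, f3, f4⟩ := hFJ a A δ₀ ρ₀ s p B hD f hf hfi
  obtain ⟨n1, n2, ⟨n3, n3'⟩, C, n4⟩ := hN a A δ₀ ρ₀ s p B hD
  obtain ⟨p1, p2⟩ := hP a A δ₀ ρ₀ s p B hD
  have ha := hD.prof.a_pos
  have hA := hD.prof.A_pos
  have hcont : ContinuousOn (phK a A s p J) (Ioo (-a) a) := by
    refine (p1 J).comp Complex.continuous_ofReal.continuousOn ?_
    intro x hx
    exact (mem_Ioo_iff.1 hx : |x| < a)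
  refine ⟨hcont, ?_, f3 J, ?_, fun σ hσ => f1 J σ hσ, ?_⟩
  · intro n
    have hb : ∀ σ ∈ Ioo (-a) a, rhon (phK a A s p J) n σ ^ 2 ≤
        Real.exp (2 * |(n : ℝ)| * a) * (C * Real.exp (2 * (|(J 2 : ℝ)| * (2 * A * a)))) := by
      intro σ hσ
      have hσ' : |σ| < a := mem_Ioo_iff.1 hσ
      have hmem : (σ : ℂ) ∈ strip a := by
        change |((σ : ℂ)).re| < a
        simpa using hσ'
      obtain ⟨m1, m2⟩ := n1 J (σ : ℂ) hmem
      have hBs : Bs a ((σ : ℂ)).re ⊆ Set.Icc (fun _ => -a) (fun _ => a) := by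
        intro ζ hζ
        have hζ' : ζ 0 ^ 2 + ζ 1 ^ 2 + ζ 2 ^ 2 < a ^ 2 - ((σ : ℂ)).re ^ 2 := hζ
        have h2 : ∀ i, ζ i ^ 2 ≤ a ^ 2 := by
          intro i
          fin_cases i <;> simp <;> nlinarith [sq_nonneg (ζ 0), sq_nonneg (ζ 1), sq_nonneg (ζ 2),
            sq_nonneg (((σ : ℂ)).re)]
        have h3 : ∀ i, |ζ i| ≤ a := fun i => abs_le_of_sq_le_sq (h2 i) ha.le
        exact ⟨fun i => (abs_le.1 (h3 i)).1, fun i => (abs_le.1 (h3 i)).2⟩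
      have hvol : volume (Bs a ((σ : ℂ)).re) < ⊤ :=
        lt_of_le_of_lt (measure_mono hBs) isCompact_Icc.measure_lt_top
      have hmeasB : MeasurableSet (Bs a ((σ : ℂ)).re) := by
        unfold Bs
        apply measurableSet_lt <;> fun_prop
      have e1 : Real.exp (-(2 * phK a A s p J σ)) ≤
          C * Real.exp (2 * (|(J 2 : ℝ)| * (2 * A * a))) := by
        unfold phK
        rw [← m2]
        calc ∫ ζ in Bs a ((σ : ℂ)).re, kJ a A s ((σ : ℂ)).re *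
              Real.exp (2 * Jd J (XX a A s p ((σ : ℂ), ζ)))
            ≤ ∫ ζ in Bs a ((σ : ℂ)).re, kJ a A s ((σ : ℂ)).re *
              Real.exp (2 * (|(J 2 : ℝ)| * (2 * A * a))) := by
              refine setIntegral_mono_on m1 (integrableOn_const hvol.ne) hmeasB ?_
              intro ζ hζ
              refine mul_le_mul_of_nonneg_left ?_ (n3' _).le
              apply Real.exp_le_exp.2
              have e2 : Jd J (XX a A s p ((σ : ℂ), ζ)) = (J 2 : ℝ) * (2 * A * ζ 2) := by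
                simp [Jd, XX, hJ.1, hJ.2]
              rw [e2]
              have e3 : |ζ 2| ≤ a := abs_le.2 ⟨(hBs hζ).1 2, (hBs hζ).2 2⟩
              have e4 : (J 2 : ℝ) * (2 * A * ζ 2) ≤ |(J 2 : ℝ)| * (2 * A * a) := by
                calc (J 2 : ℝ) * (2 * A * ζ 2) ≤ |(J 2 : ℝ) * (2 * A * ζ 2)| := le_abs_self _
                  _ = |(J 2 : ℝ)| * (2 * A * |ζ 2|) := by
                    rw [abs_mul, abs_mul, abs_of_pos (by positivity : 0 < 2 * A)]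
                  _ ≤ |(J 2 : ℝ)| * (2 * A * a) := by gcongr
              linarith
          _ = (kJ a A s ((σ : ℂ)).re * (volume (Bs a ((σ : ℂ)).re)).toReal) *
              Real.exp (2 * (|(J 2 : ℝ)| * (2 * A * a))) := by
              rw [setIntegral_const, smul_eq_mul, measureReal_def]
              ring
          _ ≤ C * Real.exp (2 * (|(J 2 : ℝ)| * (2 * A * a))) := by
              refine mul_le_mul_of_nonneg_right ?_ (Real.exp_pos _).le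
              exact n4 _ (by simpa using hσ')
      have e5 : rhon (phK a A s p J) n σ ^ 2 = Real.exp (2 * (n * σ)) *
          Real.exp (-(2 * phK a A s p J σ)) := by
        unfold rhon
        rw [← Real.exp_nat_mul, ← Real.exp_add]
        congr 1
        push_cast
        ring
      rw [e5]
      refine mul_le_mul ?_ e1 (Real.exp_pos _).le (Real.exp_pos _).le
      apply Real.exp_le_exp.2
      have : (n : ℝ) * σ ≤ |(n : ℝ)| * a := by
        calc (n : ℝ) * σ ≤ |(n : ℝ) * σ| := le_abs_self _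
          _ = |(n : ℝ)| * |σ| := abs_mul _ _
          _ ≤ |(n : ℝ)| * a := by gcongr
      linarith
    refine Integrable.of_bound (C := Real.exp (2 * |(n : ℝ)| * a) *
      (C * Real.exp (2 * (|(J 2 : ℝ)| * (2 * A * a))))) ?_ ?_
    · exact (((rhon_cont hcont n).pow 2).aestronglyMeasurable measurableSet_Ioo)
    · refine (ae_restrict_iff' measurableSet_Ioo).2 (Eventually.of_forall fun σ hσ => ?_)
      rw [Real.norm_of_nonneg (by positivity)]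
      exact hb σ hσ
  · intro w hw
    have := f4 J w hw
    rwa [K0_Jn hJ] at this
  · intro k
    obtain ⟨C', hC'⟩ := f2 k 0
    refine ⟨C', fun σ t hσ => ?_⟩
    have := hC' J σ t hσ
    rwa [pow_zero, mul_one] at this

theorem gfx_of (hF : S_FCB) (hG : S_GAM) (hM : S_FCM) (hL : S_LUB) (hH : S_HOLO) (hB : S_BDX)
    (hE : S_ETA) (hI : S_ITC) (hFJ : S_FJA) (hN : S_NRM) (hP : S_PHC) : S_GFX := by
  intro a A δ₀ ρ₀ s p B hD f hf hfi
  have ha := hD.prof.a_pos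
  obtain ⟨f1, f2, f3, f4⟩ := hFJ a A δ₀ ρ₀ s p B hD f hf hfi
  obtain ⟨p1, p2⟩ := hP a A δ₀ ρ₀ s p B hD
  have hX : ∀ J ∈ K0, FXD a (phK a A s p J) (FJ a A s p f J) := fun J hJ =>
    K0_FXD hD hFJ hN hP hf hfi hJ
  have hph : ∀ J ∈ K0, ∀ w : ℂ, PhiJ a A s p J w = phK a A s p J w.re := fun J hJ w =>
    p2 J hJ.1 hJ.2 w
  refine ⟨fun J => gser (cn a (phK a A s p J) (FJ a A s p f J)), ⟨?_, ?_⟩, ?_, ?_⟩
  · intro J hJ
    exact (fx_hol hF hG hM hL hH ha (hX J hJ)).1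
  · intro k N T
    rcases le_or_gt T 0 with hT | hT
    · have hSB : SB a T = ∅ := by
        ext w
        simp only [SB, mem_ofPred_eq, mem_empty_iff_false, iff_false, not_and, not_lt]
        intro _
        exact hT.trans (abs_nonneg _)
      refine ⟨0, fun J hJ => ?_⟩
      rw [hSB]
      simp
    · obtain ⟨CB, hCB, hCB'⟩ := fx_bound hF hG hM hL hH hB ha k hT
      obtain ⟨C0, hC0⟩ := f2 0 N
      obtain ⟨C1, hC1⟩ := f2 (k + 2) N
      refine ⟨CB * (C0 ^ 2 + C1 ^ 2), fun J hJ => ?_⟩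
      set W : ℝ := 2 + |(J 2 : ℝ)| with hW
      have hWpos : 0 < W := by positivity
      have hW1 : 1 ≤ W := by
        have := abs_nonneg (J 2 : ℝ)
        linarith
      have hb := fun (k : ℕ) (C' : ℝ) (hC : ∀ J σ t, |σ| < a →
          ‖iteratedDeriv k (fun t : ℝ => FJ a A s p f J ⟨σ, t⟩) t‖ * WJ J t ^ N ≤ C') (σ t : ℝ)
          (hσ : |σ| < a) => by
        have h1 := hC J σ t hσ
        rw [K0_WJ hJ t] at h1
        exact (le_div_iff₀ (pow_pos hWpos N)).2 h1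
      obtain ⟨i1, i2⟩ := hCB' (phK a A s p J) (FJ a A s p f J) (C0 / W ^ N) (C1 / W ^ N) (hX J hJ)
        (hb 0 C0 hC0) (hb (k + 2) C1 hC1)
      have e1 : (fun w : ℂ => (Real.exp (-PhiJ a A s p J w) *
          ‖deriv^[k] (gser (cn a (phK a A s p J) (FJ a A s p f J))) w‖) ^ 2) =
          fun w : ℂ => (Real.exp (-(phK a A s p J w.re)) *
          ‖deriv^[k] (gser (cn a (phK a A s p J) (FJ a A s p f J))) w‖) ^ 2 := by
        funext w
        rw [hph J hJ w]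
      simp only [e1]
      refine ⟨i1, ?_⟩
      have e2 : nJ J ^ N ≤ (W ^ N) ^ 2 := by
        rw [K0_nJ hJ]
        calc (1 + |(J 2 : ℝ)|) ^ N ≤ W ^ N := by
              gcongr
              linarith
          _ = W ^ N * 1 := (mul_one _).symm
          _ ≤ W ^ N * W ^ N := by
              gcongr
              exact one_le_pow₀ hW1
          _ = (W ^ N) ^ 2 := by ring
      have e3 : 0 ≤ nJ J ^ N := by rw [K0_nJ hJ]; positivity
      calc (∫ w in SB a T, (Real.exp (-(phK a A s p J w.re)) *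
            ‖deriv^[k] (gser (cn a (phK a A s p J) (FJ a A s p f J))) w‖) ^ 2) * nJ J ^ N
          ≤ (CB * ((C0 / W ^ N) ^ 2 + (C1 / W ^ N) ^ 2)) * (W ^ N) ^ 2 := by
            refine mul_le_mul i2 e2 e3 (by positivity)
        _ = CB * (C0 ^ 2 + C1 ^ 2) := by
            field_simp
  · intro J hJ w _
    exact (fx_hol hF hG hM hL hH ha (hX J hJ)).2.1 w
  · intro J hJ q hq hqp hqm
    have e1 : (fun w : ℂ => (Real.exp (-(PhiJ a A s p J w)) : ℂ) * q w) =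
        fun w : ℂ => (Real.exp (-(phK a A s p J w.re)) : ℂ) * q w := by
      funext w
      rw [hph J hJ w]
    rw [e1] at hqm
    have := fx_orth hF hG hM hL hH hE hI ha (hX J hJ) q hq hqp hqm
    simp only [hph J hJ]
    exact this

end Pool.Agent.Helper95.AB
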