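import Pool.Agent.Helper24.AB.Defs2

/-! # Project AB, modules BAR (barriers) and WT (weights), PAPER.md Sections 10 and 11.

Input: the curvature facts `IsCurv` about the potentials `Φ_J` (module PHI) and the flux blocks of the potential
`p` (`IsPotential`).  Output: `S_WT` (the weights exist, `HasWeights` of module AN) and `S_WF`.

Every `def S_XXX : Prop` is a packet: prove it in your own file as `theorem xxx : S_XXX`, or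
`theorem xxx (h1 : S_YYY) ... : S_XXX` with the packets named in the docstring as hypotheses. -/

open MeasureTheory Set Filter Topology
open scoped ContDiff

noncomputable section

namespace Pool.Agent.Helper95.AB

open Pool.Agent.Helper24.AB

/-! ## Definitions -/

/-- `u_J(t) = α e^{κt}` -/
def uF (J : Fin 3 → ℤ) (t : ℝ) : ℝ := uf (alp J) t
/-- `v_J(t) = α' e^{-κt}` -/
def vF (J : Fin 3 → ℤ) (t : ℝ) : ℝ := vf (alp' J) t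
/-- `g_J(t) = v² + l²` -/
def gF (J : Fin 3 → ℤ) (t : ℝ) : ℝ := gf (alp' J) (J 2) t
/-- `W_J(t) = 2 + |u| + |v| + |l|` -/
def WF (J : Fin 3 → ℤ) (t : ℝ) : ℝ := WJ J t
/-- `M_J = 2 + |αα'| + l²` -/
def MJ (J : Fin 3 → ℤ) : ℝ := 2 + |alp J * alp' J| + (J 2 : ℝ) ^ 2
/-- the frequencies with `(m,n) ≠ 0` -/
abbrev JI := JJ

/-- The curvature facts about the potentials `Φ_J`, with `V_J = Δ Φ_J - α Δ p` (module PHI, Section 8).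
`k1 = κ₁` is a continuous nonnegative function on `(-a,a)`. -/
structure IsCurv (a c C : ℝ) (k1 : ℝ → ℝ) (p : ℂ → ℝ) (Φ : (Fin 3 → ℤ) → ℂ → ℝ) : Prop where
  smooth : ∀ J, alp J ≠ 0 → ContDiffOn ℝ ∞ (Φ J) (strip a)
  k1c : ContinuousOn k1 (Ioo (-a) a)
  k1nn : ∀ x ∈ Ioo (-a) a, 0 ≤ k1 x
  nonneg : ∀ J, alp J ≠ 0 → ∀ w ∈ strip a, 0 ≤ lapC (Φ J) w
  pos : ∀ J, 0 < alp J → ∀ w ∈ strip a, 0 ≤ lapC (Φ J) w - alp J * lapC p w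
  mid : ∀ J, 0 < alp J → ∀ w ∈ strip a, |w.re| ≤ 39 / 40 * a →
    C * (1 + gF J w.im) ≤ uF J w.im →
    c * uF J w.im * k1 w.re ≤ lapC (Φ J) w - alp J * lapC p w ∧
    lapC (Φ J) w - alp J * lapC p w ≤ uF J w.im * k1 w.re + C
  neg : ∀ J, alp J < 0 → ∀ w ∈ strip a, c * WF J w.im - C ≤ lapC (Φ J) w
  edge : ∀ J, 0 < alp J → ∀ w ∈ strip a, 19 / 20 * a ≤ |w.re| → c * WF J w.im - C ≤ lapC (Φ J) w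
  side : ∀ J, 0 < alp J → ∀ w ∈ strip a, ∀ R : ℝ, C ≤ R → R * (1 + uF J w.im) ≤ vF J w.im ^ 2 →
    c * Real.sqrt R ≤ lapC (Φ J) w

/-- **Output of modules BAR and WT.** -/
def S_WT : Prop := ∀ (a c C : ℝ) (k1 : ℝ → ℝ), 0 < a → a ≤ 1 / 2 → 0 < c → 1 ≤ C →
  ∃ ρ₀ : ℝ, 0 < ρ₀ ∧ ∀ (δ₀ : ℝ) (p : ℂ → ℝ) (B : BlockData) (Φ : (Fin 3 → ℤ) → ℂ → ℝ),
    IsPotential a δ₀ ρ₀ p B → IsCurv a c C k1 p Φ →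
      HasWeights a (fun J : JI => Φ J.1) (fun J : JI => WF J.1)

/-- the half open square with centre `x` and side `ρ` -/
def sq (x : ℂ) (ρ : ℝ) : Set ℂ :=
  {w | x.re - ρ / 2 ≤ w.re ∧ w.re < x.re + ρ / 2 ∧ x.im - ρ / 2 ≤ w.im ∧ w.im < x.im + ρ / 2}

/-- the part `2πk + τ_j ≤ t < 2πk + τ_j + b_j` of the strip -/
def RJ (a : ℝ) (B : BlockData) (j : ℕ) (k : ℤ) : Set ℂ :=
  {w | |w.re| < a ∧ 2 * Real.pi * k + B.tau j ≤ w.im ∧ w.im < 2 * Real.pi * k + B.tau j + B.b j}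

/-- the sheet `2πk ≤ t < 2π(k+1)` of the strip -/
def SH (a : ℝ) (k : ℤ) : Set ℂ :=
  {w | |w.re| < a ∧ 2 * Real.pi * k ≤ w.im ∧ w.im < 2 * Real.pi * (k + 1)}

/-- `k` is a good sheet of generation `j` for the frequency `J` (size constant `L`). -/
structure GS (L : ℝ) (B : BlockData) (J : Fin 3 → ℤ) (j : ℕ) (k : ℤ) : Prop where
  pos : 0 < alp J
  res : 1 / 10 ≤ dZ (alp J * lam ^ k * B.eps j)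
  size : L * (1 + (J 2 : ℝ) ^ 2 + (alp' J * lam ^ (-k)) ^ 2) ≤ alp J * lam ^ k

/-- the constant of the barrier estimate -/
def Cb (c : ℝ) : ℝ := 100000 + 100 / c

/-! ## BAR: one-dimensional and local estimates -/

/-- (L2) Proof. For `x, y ∈ [α,β]` put `k(x) = e^{i∫_α^x A} f(x)`; `|k| = |f|` and `|k'| = |f' + iAf|`, so
`|f(x)| ≤ |f(y)| + ∫_α^β |f' + iAf|` and `|f(x)|² ≤ 2|f(y)|² + 2(β-α) ∫_α^β |f' + iAf|²` (Cauchy-Schwarz). Multiply by `V(y) ≥ 0`,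
integrate over `y` and then over `x`. -/
def S_L2 : Prop := ∀ (α β : ℝ) (f : ℝ → ℂ) (A V : ℝ → ℝ), α < β → ContDiff ℝ 1 f →
  ContinuousOn A (Icc α β) → IntegrableOn V (Icc α β) → (∀ x ∈ Icc α β, 0 ≤ V x) →
  (∫ x in α..β, V x) * (∫ x in α..β, ‖f x‖ ^ 2) ≤
    2 * (β - α) * (∫ x in α..β, V x * ‖f x‖ ^ 2) +
    2 * (β - α) ^ 2 * (∫ x in α..β, V x) *
      (∫ x in α..β, ‖deriv f x + Complex.I * A x * f x‖ ^ 2)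

/-- (HARDY) The Hardy inequality on a circle with flux.
Proof (elementary). Put `k(x) = e^{i∫_0^x A} f(x)` and `F = (2π)⁻¹∫_0^{2π}A`. Then `|k| = |f|`, `|k'| = |f' + iAf|`,
`k(x+2π) = e^{2πiF}k(x)`. So `|e^{2πiF} - 1| |k(x)| = |k(x+2π) - k(x)| ≤ ∫_x^{x+2π}|k'| ≤ (2π E)^{1/2}`, `E = ∫_0^{2π}|f' + iAf|²`
(periodicity). `|e^{2πiF} - 1| = 2|sin πF| ≥ 4 dZ F` (`|sin πy| ≥ 2|y|` for `|y| ≤ 1/2`: `Real.mul_le_sin`). Hence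
`16 dZ(F)² |f(x)|² ≤ 2πE`; integrate over `x ∈ [0,2π]` and divide by `4`. -/
def S_HARDY : Prop := ∀ (f : ℝ → ℂ) (A : ℝ → ℝ), ContDiff ℝ 1 f → Continuous A →
  (∀ x, f (x + 2 * Real.pi) = f x) → (∀ x, A (x + 2 * Real.pi) = A x) →
  4 * dZ ((∫ x in (0 : ℝ)..(2 * Real.pi), A x) / (2 * Real.pi)) ^ 2 *
      (∫ x in (0 : ℝ)..(2 * Real.pi), ‖f x‖ ^ 2) ≤
    Real.pi ^ 2 * ∫ x in (0 : ℝ)..(2 * Real.pi), ‖deriv f x + Complex.I * A x * f x‖ ^ 2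

/-- (GAUSS) The divergence theorem for the Laplacian on a disc.
Proof. Put `I(s) = ∫_0^{2π} s (∂_rΦ)(x + s e^{iθ}) dθ` for `0 ≤ s ≤ r`. In polar coordinates
`s·ΔΦ = ∂_s(s ∂_sΦ) + s⁻¹ ∂_θ²Φ` (chain rule: with `G(s,θ) = Φ(x + s e^{iθ})`, `G_θθ = D²Φ(i s e^{iθ}, i s e^{iθ}) - s DΦ(e^{iθ})`,
`G_ss = D²Φ(e^{iθ},e^{iθ})`, and `D²Φ(e,e) + D²Φ(ie,ie) = ΔΦ` for a unit vector `e`), and `∫_0^{2π} G_θθ dθ = 0`. So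
`I'(s) = ∫_0^{2π} s (ΔΦ)(x + s e^{iθ}) dθ`, `I(0) = 0`; integrate over `s ∈ [0,r]` and use polar coordinates
(`Complex.integral_comp_polarCoord_symm` and a translation) for `∫_{ball x r} ΔΦ`. -/
def S_GAUSS : Prop := ∀ (Φ : ℂ → ℝ) (O : Set ℂ) (x : ℂ) (r : ℝ), 0 < r → IsOpen O →
  ContDiffOn ℝ ∞ Φ O → Metric.closedBall x r ⊆ O →
  ∫ w in Metric.ball x r, lapC Φ w = ∫ θ in (0 : ℝ)..(2 * Real.pi),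
    r * fderiv ℝ Φ (x + r * Complex.exp (θ * Complex.I)) (Complex.exp (θ * Complex.I))

/-- (ANN) The annulus estimate. Uses (HARDY), (GAUSS).
Proof. Polar coordinates on the annulus `ρ/4 < |w - x| < ρ/2`. For fixed `r` let `f(θ) = φ(x + re^{iθ})` and
`A(θ) = -r (∂_rΦ)(x + re^{iθ}) = -r fderiv Φ (..) (e^{iθ})`. With `X = ∂_σφ + iΦ_tφ`, `Y = ∂_tφ - iΦ_σφ` one has
`f' + iAf = r(-sin θ X + cos θ Y)`, so `|f' + iAf|² ≤ r² gA ≤ (ρ²/4) gA`. By (GAUSS) `(2π)⁻¹∫A = -(2π)⁻¹∫_{ball x r}ΔΦ`, and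
`dZ(-y) = dZ(y)`, so (HARDY) gives `4·(1/400)∫|f|² ≤ π² ∫|f' + iAf|²`, i.e. `∫|f|² ≤ 1000 (ρ²/4) ∫ gA` (`π² ≤ 10`) on every circle;
multiply by `r` and integrate over `r`. -/
def S_ANN : Prop := ∀ (a : ℝ) (Φ : ℂ → ℝ) (φ : ℂ → ℂ) (x : ℂ) (ρ : ℝ), 0 < ρ →
  ContDiffOn ℝ ∞ Φ (strip a) → ContDiff ℝ ∞ φ → |x.re| + ρ / 2 < a →
  (∀ r, ρ / 4 < r → r < ρ / 2 →
    1 / 20 ≤ dZ ((∫ w in Metric.ball x r, lapC Φ w) / (2 * Real.pi))) →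
  ∫ w in Metric.ball x (ρ / 2) \ Metric.closedBall x (ρ / 4), ‖φ w‖ ^ 2 ≤
    250 * ρ ^ 2 * ∫ w in Metric.ball x (ρ / 2) \ Metric.closedBall x (ρ / 4), gA Φ φ w

/-- (SPREAD) From a small square to a big one. Uses (L2).
Proof. Let `y = x + 3ρ/8`; the small square is `[x.re + 5ρ/16, x.re + 7ρ/16) × [x.im - ρ/16, x.im + ρ/16)`. For every `σ` of the
small square apply (L2) to `t ↦ φ(σ+it)` on `[x.im - ρ/2, x.im + ρ/2]` with `V` = indicator of the small interval (length `ρ/8`) and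
`A = -Φ_σ(σ+it)` (then `|f' + iAf|² ≤ gA`): `∫_t|φ|² ≤ 16∫_{small}|φ|² + 2ρ²∫_t gA`; integrate over these `σ`. Then for every `t` of the big
square apply (L2) to `σ ↦ φ(σ+it)` with `V` = indicator of the small `σ`-interval and `A = Φ_t`:
`∫_σ|φ|² ≤ 16∫_{small σ}|φ|² + 2ρ²∫_σ gA`; integrate over `t`. Together `256, 16·2 + 2 = 34`. Fubini on `ℂ ≃ ℝ × ℝ`
(`Complex.volume_preserving_equiv_real_prod`); everything is continuous on the closed square. -/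
def S_SPREAD : Prop := ∀ (a : ℝ) (Φ : ℂ → ℝ) (φ : ℂ → ℂ) (x : ℂ) (ρ : ℝ), 0 < ρ →
  ContDiffOn ℝ ∞ Φ (strip a) → ContDiff ℝ ∞ φ → |x.re| + ρ / 2 < a →
  ∫ w in sq x ρ, ‖φ w‖ ^ 2 ≤
    256 * (∫ w in sq (x + (3 / 8 * ρ : ℝ)) (ρ / 8), ‖φ w‖ ^ 2) + 34 * ρ ^ 2 * ∫ w in sq x ρ, gA Φ φ w

/-- (CELLA) A cell with non-integral flux. Uses (ANN), (SPREAD).
Proof. The small square of (SPREAD) is contained in the annulus (`5ρ/16 > ρ/4`, `√50/16 < 1/2`), the annulus in `sq x ρ`; constants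
`256·250 + 34 ≤ 100000`. -/
def S_CELLA : Prop := ∀ (a : ℝ) (Φ : ℂ → ℝ) (φ : ℂ → ℂ) (x : ℂ) (ρ : ℝ), 0 < ρ →
  ContDiffOn ℝ ∞ Φ (strip a) → ContDiff ℝ ∞ φ → |x.re| + ρ / 2 < a →
  (∀ r, ρ / 4 < r → r < ρ / 2 →
    1 / 20 ≤ dZ ((∫ w in Metric.ball x r, lapC Φ w) / (2 * Real.pi))) →
  ∫ w in sq x ρ, ‖φ w‖ ^ 2 ≤ 100000 * ρ ^ 2 * ∫ w in sq x ρ, gA Φ φ w

/-- (CELLB) A cell with curvature on every row. Uses (L2).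
Proof. For fixed `t` (L2) in the `σ`-direction with `A = Φ_t(σ+it)`: with `v_t = ∫_σ V ≥ c'/ρ > 0`,
`∫_σ|φ|² ≤ (2ρ/v_t)∫_σ V|φ|² + 2ρ²∫_σ gA ≤ (2ρ²/c')∫_σ V|φ|² + 2ρ²∫_σ gA`; integrate over `t` (Fubini). -/
def S_CELLB : Prop := ∀ (a c' : ℝ) (Φ V : ℂ → ℝ) (φ : ℂ → ℂ) (x : ℂ) (ρ : ℝ), 0 < ρ → 0 < c' →
  ContDiffOn ℝ ∞ Φ (strip a) → ContDiff ℝ ∞ φ → |x.re| + ρ / 2 < a →
  ContinuousOn V (strip a) → (∀ w ∈ sq x ρ, 0 ≤ V w) →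
  (∀ t, x.im - ρ / 2 ≤ t → t < x.im + ρ / 2 →
    c' ≤ ρ * ∫ s in (x.re - ρ / 2)..(x.re + ρ / 2), V ⟨s, t⟩) →
  ∫ w in sq x ρ, ‖φ w‖ ^ 2 ≤
    2 * ρ ^ 2 / c' * (∫ w in sq x ρ, V w * ‖φ w‖ ^ 2) + 2 * ρ ^ 2 * ∫ w in sq x ρ, gA Φ φ w

/-- (LK) The potential in the sheet `k`, and the flux of the holes.
Proof. `p(w + 2πik) = λ^k p(w)` by induction over `k` in both directions from `p1`, so `lapC p (w + 2πik) = λ^k lapC p w` for all `w`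
(`fderiv` commutes with translations and scalars: no differentiability needed). The integral over the ball of radius `r` with
`ρ/4 ≤ r ≤ ρ/2` is the integral over the ball of radius `ρ/4` (`off`: `Δp = 0` on `ρ/4 ≤ |w - ctr|`, `w` in the tile, and the ball of
radius `ρ/2` is in the tile), translate the ball. (`lam > 0`.) -/
def S_LK : Prop := ∀ (a δ₀ ρ₀ : ℝ) (p : ℂ → ℝ) (B : BlockData), IsPotential a δ₀ ρ₀ p B →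
  (∀ (k : ℤ) (w : ℂ), lapC p (w + 2 * Real.pi * k * Complex.I) = lam ^ k * lapC p w) ∧
  ∀ (k : ℤ) (j i i' : ℕ), i < B.Ns j → i' < B.Nt j → ∀ r, B.rho j / 4 ≤ r → r ≤ B.rho j / 2 →
    ∫ w in Metric.ball (B.ctr j i i' + 2 * Real.pi * k * Complex.I) r, lapC p w =
      2 * Real.pi * (lam ^ k * B.eps j)

/-- (SZ) Sizes on a good sheet. `e^{κ 2πk} = λ^k`. For `t ≥ 2πk`: `u(t) ≥ αλ^k`, `|v(t)| ≤ |α'|λ^{-k}`, so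
`L(1 + g(t)) ≤ αλ^k ≤ u(t)`, and `L ≤ u(t) ≤ W(t)`. The last statement: `v(t)² ≤ (α'λ^{-k})² ≤ αλ^k/L ≤ u(t) < 1 + u(t)` for `L ≥ 1`.
Also `u(t) ≤ 2 u(t')` for `|t - t'| ≤ 1` (`e^κ ≤ 2`, `κ < 1/2`). -/
def S_SZ : Prop := (∀ k : ℤ, Real.exp (kap * (2 * Real.pi * k)) = lam ^ k) ∧
  (∀ J : Fin 3 → ℤ, 0 < alp J → ∀ t t' : ℝ, |t - t'| ≤ 1 → uF J t ≤ 2 * uF J t') ∧
  ∀ (L : ℝ) (B : BlockData) (J : Fin 3 → ℤ) (j : ℕ) (k : ℤ) (t : ℝ), 1 ≤ L → GS L B J j k →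
    2 * Real.pi * k ≤ t → L * (1 + gF J t) ≤ uF J t ∧ L ≤ uF J t ∧ L ≤ WF J t ∧
      vF J t ^ 2 < 1 + uF J t

/-- (CELL) The barrier estimate on one cell. Uses (CELLA), (CELLB), (LK), (SZ).
Put `x = ctr + 2πik`, `ρ = ρ_j`, `V = ΔΦ_J - αΔp ≥ 0` (continuous on the strip; `Δp ≥ 0`, so `V ≤ ΔΦ_J`). `K = sq x ρ`.
Note `|x.re| + ρ/2 ≤ a₂(j) ≤ 39a/40 < a` (`x.re = -a₂ + (i+1/2)ρ`, `Ns ρ = 2a₂`) and on `K`: `t ≥ 2πk + τ_j > 2πk`, so `mid` holds on `K`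
(`L ≥ C`, (SZ)).
Case A: `∫_{ball x (ρ/2)} V ≤ π/10`. For `ρ/4 < r < ρ/2` `∫_{ball x r}ΔΦ_J/(2π) = αλ^kε_j + (2π)⁻¹∫_{ball x r}V`, `0 ≤ (2π)⁻¹∫V ≤ 1/20`,
so `dZ ≥ 1/10 - 1/20` (`dZ(y+s) ≥ dZ(y) - |s|`), and (CELLA) applies.
Case B: `∫_{ball x (ρ/2)} V > π/10`. Fix `t₀` in the `t`-range of `K`. On the ball (contained in `K`, `V ≥ 0`)
`V ≤ u k1 + C ≤ 2u(t₀)k1 + C`, so `π/10 ≤ 2u(t₀) ρ ∫k1 dσ + Cρ²`, with `Cρ² ≤ π/20`: `ρ u(t₀)∫k1 dσ ≥ π/40`; and `V(σ,t₀) ≥ c u(t₀)k1(σ)`, so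
`ρ∫V(σ,t₀)dσ ≥ cπ/40 =: c'`. (CELLB): `2/c' = 80/(πc) ≤ 26/c`. (`∫_K` of continuous functions, Fubini for the product `k1(σ)·1`.) -/
def S_CELL : Prop := ∀ (a c C L δ₀ ρ₀ : ℝ) (k1 : ℝ → ℝ) (p : ℂ → ℝ) (B : BlockData)
  (Φ : (Fin 3 → ℤ) → ℂ → ℝ) (J : Fin 3 → ℤ) (j : ℕ) (k : ℤ) (i i' : ℕ) (φ : ℂ → ℂ),
  0 < a → 0 < c → 1 ≤ C → C ≤ L → IsPotential a δ₀ ρ₀ p B → IsCurv a c C k1 p Φ →
  B.rho j ≤ 1 → C * B.rho j ^ 2 ≤ Real.pi / 20 →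
  GS L B J j k → i < B.Ns j → i' < B.Nt j → ContDiff ℝ ∞ φ →
  ∫ w in sq (B.ctr j i i' + 2 * Real.pi * k * Complex.I) (B.rho j), ‖φ w‖ ^ 2 ≤
    Cb c * B.rho j ^ 2 * ∫ w in sq (B.ctr j i i' + 2 * Real.pi * k * Complex.I) (B.rho j),
      (gA (Φ J) φ w + lapC (Φ J) w * ‖φ w‖ ^ 2)

/-- (BARR) The barrier estimate on the block of a good sheet. Uses (CELL), (SZ).
Proof. `RJ a B j k` is the disjoint union of the squares `sq (ctr j i i' + 2πik) ρ_j`, `i < Ns`, `i' < Nt` (`tile_s`, `tile_t`: they tile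
`-a₂ ≤ σ < a₂`), and of the rest, where `|σ| ≥ a₂(j) ≥ 19a/20`, so `ΔΦ_J ≥ cL - C ≥ 1/ρ²` by `edge` and (SZ). All integrands are
continuous with compact support in the strip (`φ` is a test function), so integrable; add up. (`Cb c ≥ 1`.) -/
def S_BARR : Prop := ∀ (a c C L δ₀ ρ₀ : ℝ) (k1 : ℝ → ℝ) (p : ℂ → ℝ) (B : BlockData)
  (Φ : (Fin 3 → ℤ) → ℂ → ℝ) (J : Fin 3 → ℤ) (j : ℕ) (k : ℤ) (φ : ℂ → ℂ),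
  0 < a → 0 < c → 1 ≤ C → C ≤ L → IsPotential a δ₀ ρ₀ p B → IsCurv a c C k1 p Φ →
  B.rho j ≤ 1 → C * B.rho j ^ 2 ≤ Real.pi / 20 →
  1 / B.rho j ^ 2 ≤ c * L - C → GS L B J j k → IsTest a φ →
  ∫ w in RJ a B j k, ‖φ w‖ ^ 2 ≤
    Cb c * B.rho j ^ 2 * ∫ w in RJ a B j k, (gA (Φ J) φ w + lapC (Φ J) w * ‖φ w‖ ^ 2)

/-! ## WT: numbers -/

/-- (WB0) Elementary facts. `αα' = n² + mn - m²` is a nonzero integer for `(m,n) ≠ 0` (`√5` is irrational), so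
`|αα'| ≥ 1`, `α ≠ 0`, `α' ≠ 0`; `uv = αα'`; `κ ≤ 1`, so `W(t+s) ≤ e^{|s|}W(t)`; `W ≥ |u| + |v| ≥ 2cosh(κ(t - t_J))` with
`αe^{κt_J} = ±√|αα'|·(..)`: precisely `|u(t)| + |v(t)| ≥ 2√|αα'| cosh(κ(t-t_J)) ≥ 2cosh(κ(t - t_J)) ≥ 1 + |κ(t-t_J)|`,
`e^{2κt_J} = |α'/α|`, so `∫W⁻² ≤ ∫(1 + |κs|)^{-2}ds`, the same constant for all `J`. `M ≤ 3W²`. -/
def S_WB0 : Prop := (∀ J : JI, alp J.1 ≠ 0 ∧ alp' J.1 ≠ 0 ∧ 1 ≤ |alp J.1 * alp' J.1|) ∧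
  (∀ (J : Fin 3 → ℤ) (t : ℝ), uF J t * vF J t = alp J * alp' J ∧ MJ J ≤ 3 * WF J t ^ 2) ∧
  IsWt (fun J : JI => WF J.1) ∧
  ∃ C : ℝ, ∀ J : JI, Integrable (fun t => (WF J.1 t ^ 2)⁻¹) ∧ ∫ t, (WF J.1 t ^ 2)⁻¹ ≤ C

/-- (SHIFT) The action of `Q^T` and its inverse on integer vectors. `(m,n,l) ↦ (2m+n, m+n, l)` multiplies `α` by `λ` and `α'` by `λ⁻¹`;
the inverse is `(m,n,l) ↦ (m-n, 2n-m, l)`. Induction over `k ∈ ℤ`. -/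
def S_SHIFT : Prop := ∀ (J : JI) (k : ℤ), ∃ J' : JI, alp J'.1 = alp J.1 * lam ^ k ∧
  alp' J'.1 = alp' J.1 * lam ^ (-k) ∧ J'.1 2 = J.1 2

/-- (CNTK) Non-resonant sheets from an arbitrary start `k₀ ∈ ℤ`. Uses (SHIFT): apply `NR` to `J'` of (SHIFT) with `k₀`. -/
def S_CNTK : Prop := ∀ ε : ℝ, NR ε → ∃ C : ℝ, 0 ≤ C ∧ ∀ (J : JI) (k₀ : ℤ) (K : ℕ),
  (K : ℝ) / 100 - C * Real.log (2 + |alp J.1 * lam ^ k₀| + |alp' J.1 * lam ^ (-k₀)|) ≤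
    (((Finset.range K).filter fun k : ℕ =>
      1 / 10 ≤ dZ (alp J.1 * lam ^ (k₀ + (k : ℤ)) * ε)).card : ℝ)

/-- (ELL) The truncated logarithm `ℓ(x) = θ(x) log x`, `θ(x) = smoothTransition (x-1)` (`0` for `x ≤ 1`, `1` for `x ≥ 2`). `xℓ'(x)` is
bounded: `0` for `x ≤ 1`, `1` for `x > 2`, continuous on `[1,2]`. -/
def S_ELL : Prop := ∃ (ell : ℝ → ℝ) (Cl : ℝ), 1 ≤ Cl ∧ ContDiff ℝ ∞ ell ∧ (∀ x, 0 ≤ ell x) ∧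
  (∀ x ≤ 1, ell x = 0 ∧ deriv ell x = 0) ∧ (∀ x, 1 ≤ x → Real.log x - 1 ≤ ell x) ∧
  (∀ x, 1 ≤ x → ell x ≤ Real.log x) ∧ ∀ x, |x * deriv ell x| ≤ Cl

/-- (PSI1) The staircase. `Good ⊂ ℤ` is bounded below by `k₀`; `ψ(t) = ∑_{k ∈ Good} χ((t - 2πk - τ)/b)`, `χ = Real.smoothTransition`
(`0` for `x ≤ 0`, `1` for `x ≥ 1`, derivative bounded by a constant `Cχ`, since it is continuous and `0` outside `[0,1]`). The sum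
is locally finite (only `k₀ ≤ k ≤ t/2π` contribute). On the sheet `2πk ≤ t < 2π(k+1)` the terms `k' < k` are `1`, the terms
`k' > k` are `0` near `t` (`0 < τ`, `τ + b < 2π`: the term `k' < k` is constant `1` for `t > 2πk' + τ + b`, and `2πk > 2πk' + τ + b`;
the term `k' > k` is `0` for `t ≤ 2πk' + τ`, and `t < 2π(k+1) < 2πk' + τ`). -/
def S_PSI1 : Prop := ∃ Cχ : ℝ, 1 ≤ Cχ ∧ ∀ (Good : Set ℤ) (k₀ : ℤ) (τ b : ℝ),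
  (∀ k ∈ Good, k₀ ≤ k) → 0 < τ → 0 < b → τ + b < 2 * Real.pi → ∃ ψ : ℝ → ℝ, ContDiff ℝ ∞ ψ ∧
    (∀ t, |deriv ψ t| ≤ Cχ / b) ∧
    ∀ (k : ℤ) (t : ℝ), 2 * Real.pi * k ≤ t → t < 2 * Real.pi * (k + 1) →
      (k ∉ Good → deriv ψ t = 0) ∧
      ((t < 2 * Real.pi * k + τ ∨ 2 * Real.pi * k + τ + b ≤ t) → deriv ψ t = 0) ∧
      ((Good ∩ Ico k₀ k).ncard : ℝ) ≤ ψ t ∧ ψ t ≤ ((Good ∩ Icc k₀ k).ncard : ℝ)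

/-- (DERL) Smoothness and derivatives of the logarithmic parts of the weights.
`u' = κu`, `v' = -κv`, `0 < κ ≤ 1/3`. With `q = v²/(R(1+u))` (`α > 0`, so `u > 0`): `q' = -(2κ + κu/(1+u)) q`, so
`|(ℓ∘q)'| = |ℓ'(q) q|·(2κ + κu/(1+u)) ≤ 3κ Cl ≤ Cl`; if `q < 1` then `ℓ'(q) = 0`. `(u²/R)' = 2κu²/R`, `(v²/R)' = -2κv²/R`. -/
def S_DERL : Prop := ∀ (ell : ℝ → ℝ) (Cl R : ℝ) (J : Fin 3 → ℤ), ContDiff ℝ ∞ ell →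
  (∀ x ≤ 1, ell x = 0 ∧ deriv ell x = 0) → (∀ x, |x * deriv ell x| ≤ Cl) → 1 ≤ R →
  (0 < alp J → ContDiff ℝ ∞ (fun t => ell (vF J t ^ 2 / (R * (1 + uF J t)))) ∧
    ∀ t, |deriv (fun t => ell (vF J t ^ 2 / (R * (1 + uF J t)))) t| ≤ Cl ∧
      (vF J t ^ 2 < R * (1 + uF J t) →
        deriv (fun t => ell (vF J t ^ 2 / (R * (1 + uF J t)))) t = 0)) ∧
  (ContDiff ℝ ∞ (fun t => ell (uF J t ^ 2 / R)) ∧ ∀ t, |deriv (fun t => ell (uF J t ^ 2 / R)) t| ≤ Cl ∧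
      (uF J t ^ 2 < R → deriv (fun t => ell (uF J t ^ 2 / R)) t = 0)) ∧
  (ContDiff ℝ ∞ (fun t => ell (vF J t ^ 2 / R)) ∧ ∀ t, |deriv (fun t => ell (vF J t ^ 2 / R)) t| ≤ Cl ∧
      (vF J t ^ 2 < R → deriv (fun t => ell (vF J t ^ 2 / R)) t = 0))

/-! ## WT: hypothesis (H) -/

/-- (HPOS) Hypothesis (H) for `α > 0`. Uses (BARR), (SZ), (DERL) and the Bochner identity `S_ID` of module AN.
`ψ = S·ψ₁ + N₁ℓ(q) + K₀`, `q(t) = v²/(R(1+u))`; `ψ₁` is a staircase with the properties of (PSI1) for `Good = {k | GS L B J j k}`.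
Proof. `φ` a test function. (1) `q' = -(2κ + κu/(1+u)) q`, so `|(ℓ∘q)'| = |ℓ'(q)q'| ≤ 3κCl ≤ Cl` (`κ ≤ 1/3`), and it vanishes unless `q ≥ 1`,
i.e. `v² ≥ R(1+u)`, where `ΔΦ_J ≥ c√R` by `side`; so `(N₁(ℓ∘q)')²|φ|² ≤ N₁²Cl²/(c√R) ΔΦ_J|φ|² ≤ (1/128)ΔΦ_J|φ|²` pointwise.
(2) On the sheet `k` the function `ψ₁'` vanishes unless `k` is good and `2πk + τ_j ≤ t < 2πk + τ_j + b_j`; there `(Sψ₁')² ≤ (S·Cχ/b_j)²`,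
and (BARR) gives `∫_{RJ}(Sψ₁')²|φ|² ≤ (S·Cχ/b_j)²·Cb ρ_j² ∫_{RJ}(gA + ΔΦ_J|φ|²) ≤ (1/128)∫_{RJ}(gA + ΔΦ_J|φ|²)`.
(3) Where `ψ₁' ≠ 0` we have `v² < 1 + u` by (SZ), so `q < 1` (`R ≥ 1`) and `(ℓ∘q)' = 0`: `(ψ')² = (Sψ₁')² + (N₁(ℓ∘q)')²`.
(4) Add over the sheets `SH a k` (the strip is their disjoint union, `φ` has compact support, all functions are
integrable): `∫(ψ')²|φ|² ≤ (1/128 + 1/128)∫_{strip}(gA + ΔΦ_J|φ|²) = (4/64)‖Dφ‖²` by `S_ID`. -/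
def S_HPOS : Prop := ∀ (a c C L δ₀ ρ₀ S N₁ R K₀ Cl Cχ : ℝ) (k1 : ℝ → ℝ) (p : ℂ → ℝ) (B : BlockData)
  (Φ : (Fin 3 → ℤ) → ℂ → ℝ) (J : Fin 3 → ℤ) (j : ℕ) (ell ψ₁ : ℝ → ℝ),
  0 < a → 0 < c → 1 ≤ C → C ≤ L → IsPotential a δ₀ ρ₀ p B → IsCurv a c C k1 p Φ →
  B.rho j ≤ 1 → C * B.rho j ^ 2 ≤ Real.pi / 20 →
  1 / B.rho j ^ 2 ≤ c * L - C → 0 < alp J →
  ContDiff ℝ ∞ ell → (∀ x ≤ 1, ell x = 0 ∧ deriv ell x = 0) → (∀ x, |x * deriv ell x| ≤ Cl) →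
  ContDiff ℝ ∞ ψ₁ → (∀ t, |deriv ψ₁ t| ≤ Cχ / B.b j) →
  (∀ (k : ℤ) (t : ℝ), 2 * Real.pi * k ≤ t → t < 2 * Real.pi * (k + 1) →
    (¬ GS L B J j k → deriv ψ₁ t = 0) ∧
    ((t < 2 * Real.pi * k + B.tau j ∨ 2 * Real.pi * k + B.tau j + B.b j ≤ t) → deriv ψ₁ t = 0)) →
  C ≤ R → 0 ≤ N₁ → 128 * (N₁ * Cl) ^ 2 ≤ c * Real.sqrt R →
  0 ≤ S → 128 * (S * Cχ / B.b j) ^ 2 * (Cb c * B.rho j ^ 2) ≤ 1 → S_ID →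
    HypH a (Φ J) (fun t => S * ψ₁ t + N₁ * ell (vF J t ^ 2 / (R * (1 + uF J t))) + K₀)

/-- (HNEG) Hypothesis (H) for `α < 0`. Uses (DERL), `S_ID`.
`ψ = N₁(ℓ(u²/R) + ℓ(v²/R)) + K₀`. Proof. `(u²)' = 2κu²`, `(v²)' = -2κv²`, so `|(ℓ(u²/R))'| ≤ 2κCl ≤ Cl` and it is `0` unless `u² ≥ R`, the same
for `v`. So `|ψ'| ≤ 2N₁Cl`, and `ψ' = 0` unless `|u| ≥ √R` or `|v| ≥ √R`, where `ΔΦ_J ≥ cW - C ≥ c√R - C ≥ 64·4N₁²Cl²`. Hence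
`(ψ')²|φ|² ≤ (1/64)ΔΦ_J|φ|²` pointwise and `∫(ψ')²|φ|² ≤ (1/64)∫(gA + ΔΦ_J|φ|²) = (1/16)‖Dφ‖²`. -/
def S_HNEG : Prop := ∀ (a c C N₁ R K₀ Cl : ℝ) (k1 : ℝ → ℝ) (p : ℂ → ℝ)
  (Φ : (Fin 3 → ℤ) → ℂ → ℝ) (J : Fin 3 → ℤ) (ell : ℝ → ℝ),
  0 < a → 0 < c → 1 ≤ C → IsCurv a c C k1 p Φ → alp J < 0 →
  ContDiff ℝ ∞ ell → (∀ x ≤ 1, ell x = 0 ∧ deriv ell x = 0) → (∀ x, |x * deriv ell x| ≤ Cl) →
  1 ≤ R → 0 ≤ N₁ → 256 * (N₁ * Cl) ^ 2 ≤ c * Real.sqrt R - C → S_ID →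
    HypH a (Φ J) (fun t => N₁ * (ell (uF J t ^ 2 / R) + ell (vF J t ^ 2 / R)) + K₀)

/-! ## WT: size of the weights -/

/-- (STAIR) Lower and upper bounds of the staircase. Uses (CNTK), (WB0), (SZ).
`L ≥ 1`, `ε_j` has `NR`. For every frequency `J` with `α > 0` let `Good = {k | GS L B J j k}`; it is bounded below by some `k₀`
(`L ≤ αλ^k`). Claim: for `2πk ≤ t < 2π(k+1)`
`#(Good ∩ [k₀,k)) ≥ (100 log λ)⁻¹ log u(t) - C₃ log M_J` and `#(Good ∩ [k₀,k]) ≤ log W(t)/log λ + 2`, `C₃` independent of `J`, `t`.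
Upper bound: a good `k' ≤ k` has `αλ^{k'} ≥ L ≥ 1` and `k' ≤ k ≤ t/2π`, so they lie in an interval of length
`log(αλ^k)/log λ ≤ log u(t)/log λ` (`u(t) = αe^{κt} ≥ αλ^k`), `u ≤ W`; if there is none, `0 ≤ ..`.
Lower bound: let `k₁` be the smallest integer with `αλ^{k₁} ≥ LM²` (`M = M_J`), so `αλ^{k₁} < λLM²`. For `k' ≥ k₁`:
`(α'λ^{-k'})² = (αα'/(αλ^{k'}))² ≤ (M/(LM²))² ≤ 1`, `L(1 + l² + 1) ≤ LM² ≤ αλ^{k'}`: the size condition holds. With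
`K = max(0, k - k₁)` (CNTK) gives at least `K/100 - C log(2 + λLM² + 1)` good `k' ∈ [k₁, k)`, and
`C log(3 + λLM²) ≤ C₃' log M` (`M ≥ 2`). Finally `u(t) = αe^{κt} ≤ αλ^{k+1} = αλ^{k₁}λ^{k+1-k₁} ≤ LM²λ^{k+2-k₁}`, so
`k - k₁ ≥ (log u(t) - log L - 2 log M)/log λ - 2`, and constants are `≤ const·log M`. -/
def S_STAIR : Prop := ∀ (L : ℝ) (B : BlockData) (j : ℕ), 1 ≤ L → NR (B.eps j) → ∃ C₃ : ℝ, 0 ≤ C₃ ∧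
  ∀ J : JI, 0 < alp J.1 → ∃ k₀ : ℤ, (∀ k, GS L B J.1 j k → k₀ ≤ k) ∧
    ∀ (k : ℤ) (t : ℝ), 2 * Real.pi * k ≤ t → t < 2 * Real.pi * (k + 1) →
      (100 * Real.log lam)⁻¹ * Real.log (uF J.1 t) - C₃ * Real.log (MJ J.1) ≤
        (({k | GS L B J.1 j k} ∩ Ico k₀ k).ncard : ℝ) ∧
      (({k | GS L B J.1 j k} ∩ Icc k₀ k).ncard : ℝ) ≤ Real.log (WF J.1 t) / Real.log lam + 2

/-- (WPOS) Size of the weight for `α > 0`. Uses (WB0).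
`e^ψ` with `ψ = S·ψ₁ + N₁ℓ(q) + N₂ log M`, `q = v²/(R(1+u))`, where `ψ₁ ≥ max(0, (100 log λ)⁻¹ log u - C₃ log M)`,
`ψ₁ ≤ log W/log λ + 2`, `S ≥ 100 N log λ`, `N₁ = N`, `N₂ = N₂(N,S,C₃)` large. All constants independent of `J`.
Lower bound `W^N ≤ Ce^ψ`. `e^{Sψ₁} ≥ max(1, u^{S/(100 log λ)}M^{-SC₃}) ≥ max(1, u)^N M^{-SC₃}` (for `u ≤ 1` use `1`).
 (A) `v² ≤ R(1+u)`: `W ≤ 2 + u + √R(1+u) + |l| ≤ C_R(1+u)M`, so `W^N ≤ C(1+u)^N M^N ≤ C 2^N max(1,u)^N M^N ≤ C e^{Sψ₁}M^{SC₃+N}`.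
 (B) `v² > R(1+u)`: `|v| > 1` (`R ≥ 1`), `u = |αα'|/|v| ≤ M`, `W ≤ 2 + M + |v| + |l| ≤ 4M|v|`;
 `e^{N₁ℓ(q)} ≥ (q/e)^{N₁}`, `q ≥ v²/(2RM)` (`1 + u ≤ 2M`), so `e^{N₁ℓ(q)} ≥ c(v²/M)^{N}` and `W^N ≤ 4^N M^N |v|^N ≤ C M^{2N} e^{N₁ℓ(q)}`.
Upper bound: `e^{Sψ₁} ≤ e^{2S}W^{S/log λ}`, `e^{N₁ℓ(q)} ≤ max(1,q)^{N₁} ≤ W^{2N₁}`, `M ≤ 3W²`. Real exponents may be rounded up to natural
numbers (`W ≥ 1`). -/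
def S_WPOS : Prop := ∀ (N : ℕ) (S R C₃ : ℝ) (ell : ℝ → ℝ), 1 ≤ R → 0 ≤ C₃ → 0 ≤ S →
  100 * N * Real.log lam ≤ S →
  (∀ x, 0 ≤ ell x) → (∀ x ≤ 1, ell x = 0) → (∀ x, 1 ≤ x → Real.log x - 1 ≤ ell x) →
  (∀ x, 1 ≤ x → ell x ≤ Real.log x) → ∃ (N₂ Cw : ℝ) (N' : ℕ), 0 ≤ N₂ ∧ ∀ (J : JI) (t y : ℝ),
    0 < alp J.1 → 0 ≤ y →
    (100 * Real.log lam)⁻¹ * Real.log (uF J.1 t) - C₃ * Real.log (MJ J.1) ≤ y →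
    y ≤ Real.log (WF J.1 t) / Real.log lam + 2 →
      WF J.1 t ^ N ≤ Cw * Real.exp (S * y + N * ell (vF J.1 t ^ 2 / (R * (1 + uF J.1 t))) +
        N₂ * Real.log (MJ J.1)) ∧
      Real.exp (S * y + N * ell (vF J.1 t ^ 2 / (R * (1 + uF J.1 t))) +
        N₂ * Real.log (MJ J.1)) ≤ Cw * WF J.1 t ^ N'

/-- (WNEG) Size of the weight for `α < 0` (in fact for all `J`). Uses (WB0) (`M ≤ 3W²`).
`e^{Nℓ(u²/R)} ≥ c_R(1+|u|)^N` (for `u² ≤ R` both sides are bounded; otherwise `e^{Nℓ(u²/R)} ≥ (u²/(eR))^N ≥ c|u|^{N}`), the same for `v`, and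
`W ≤ (1+|u|)(1+|v|)·2M`. Upper bound: `e^{Nℓ(u²/R)} ≤ max(1,u²)^N ≤ W^{2N}`. -/
def S_WNEG : Prop := ∀ (N : ℕ) (R : ℝ) (ell : ℝ → ℝ), 1 ≤ R →
  (∀ x, 0 ≤ ell x) → (∀ x ≤ 1, ell x = 0) → (∀ x, 1 ≤ x → Real.log x - 1 ≤ ell x) →
  (∀ x, 1 ≤ x → ell x ≤ Real.log x) → ∃ (Cw : ℝ) (N' : ℕ), ∀ (J : Fin 3 → ℤ) (t : ℝ),
    WF J t ^ N ≤ Cw * Real.exp (N * (ell (uF J t ^ 2 / R) + ell (vF J t ^ 2 / R)) +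
      N * Real.log (MJ J)) ∧
    Real.exp (N * (ell (uF J t ^ 2 / R) + ell (vF J t ^ 2 / R)) +
      N * Real.log (MJ J)) ≤ Cw * WF J t ^ N'

end Pool.Agent.Helper95.AB
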