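import Pool.Agent.Helper10.AB.GoalsF3

/-! # Project AB, module FM, the fixed frequencies `J = (0,0,l)` (interface `S_GFX`).

Abstract form: `φ` is continuous on `(-a,a)`, `F` is a `2πi`-periodic function on the strip, smooth in `t` with bounded
derivatives.  The projection of `F` to `e^{-φ(σ)} · (periodic holomorphic functions)` is computed by Fourier series in `t`. -/

open MeasureTheory Set Filter Topology
open scoped ContDiff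

noncomputable section

namespace Pool.Agent.Helper95.AB

open Pool.Agent.Helper24.AB Pool.Agent.Helper10.AB

/-- The `n`-th Fourier coefficient of a `2π`-periodic function. -/
def fcu (u : ℝ → ℂ) (n : ℤ) : ℂ :=
  ((2 * Real.pi)⁻¹ : ℝ) * ∫ t in (0 : ℝ)..(2 * Real.pi), u t * Complex.exp (-(Complex.I * n * t))

/-- The `n`-th Fourier coefficient in `t` of a function on the strip: `F_n(σ)`. -/
def fc (F : ℂ → ℂ) (n : ℤ) (σ : ℝ) : ℂ := fcu (fun t => F ⟨σ, t⟩) n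

/-- `ρ_n(σ) = e^{nσ - φ(σ)}` -/
def rhon (φ : ℝ → ℝ) (n : ℤ) (σ : ℝ) : ℝ := Real.exp (n * σ - φ σ)

/-- `w_n = ∫_{-a}^a ρ_n²` -/
def wn (a : ℝ) (φ : ℝ → ℝ) (n : ℤ) : ℝ := ∫ σ in Ioo (-a) a, rhon φ n σ ^ 2

/-- The coefficient of the projection of `G` to the line `ℂρ` in `L²(-a,a)`. -/
def pc (a : ℝ) (ρ : ℝ → ℝ) (G : ℝ → ℂ) : ℂ :=
  (∫ σ in Ioo (-a) a, G σ * (ρ σ : ℂ)) / ((∫ σ in Ioo (-a) a, ρ σ ^ 2 : ℝ) : ℂ)

/-- `γ_n = ∫ F_n ρ_n / ∫ ρ_n²` -/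
def cn (a : ℝ) (φ : ℝ → ℝ) (F : ℂ → ℂ) (n : ℤ) : ℂ := pc a (rhon φ n) (fc F n)

/-- `∑ c_n e^{nw}` -/
def gser (c : ℤ → ℂ) (w : ℂ) : ℂ := ∑' n : ℤ, c n * Complex.exp (n * w)

/-- The data of the abstract problem. -/
structure FXD (a : ℝ) (φ : ℝ → ℝ) (F : ℂ → ℂ) : Prop where
  cont : ContinuousOn φ (Ioo (-a) a)
  int : ∀ n : ℤ, IntegrableOn (fun σ => rhon φ n σ ^ 2) (Ioo (-a) a)
  meas : AEStronglyMeasurable F (muS a)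
  per : ∀ w ∈ strip a, F (w + 2 * Real.pi * Complex.I) = F w
  smooth : ∀ σ, |σ| < a → ContDiff ℝ ∞ (fun t : ℝ => F ⟨σ, t⟩)
  bd : ∀ k : ℕ, ∃ M : ℝ, ∀ σ t, |σ| < a → ‖iteratedDeriv k (fun t : ℝ => F ⟨σ, t⟩) t‖ ≤ M

/-- (FCB) Fourier series of a smooth periodic function.
Proof. `k`-fold integration by parts (the boundary terms vanish by periodicity of `u` and of all its derivatives):
`fcu (u') n = i n fcu u n`, so `(in)^k fcu u n = fcu (u^(k)) n`, and `|fcu v n| ≤ sup|v|`. So `|fcu u n| ≤ M/n²` is summable, and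
the Fourier series of the continuous function on the circle `AddCircle (2π)` converges to it
(`has_pointwise_sum_fourier_series_of_summable`; `fourierCoeffOn`, `fourierCoeff_liftIoc_eq`). -/
def S_FCB : Prop := ∀ u : ℝ → ℂ, ContDiff ℝ ∞ u → (∀ t, u (t + 2 * Real.pi) = u t) →
  (∀ (k : ℕ) (M : ℝ), (∀ t, ‖iteratedDeriv k u t‖ ≤ M) → ∀ n : ℤ, |(n : ℝ)| ^ k * ‖fcu u n‖ ≤ M) ∧
  ∀ t : ℝ, HasSum (fun n : ℤ => fcu u n * Complex.exp (Complex.I * n * t)) (u t)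

/-- (GAM) Projection to a line in `L²(-a,a)`.
Proof. `ρ` is continuous and positive, `ρ² ∈ L¹`, so `w = ∫ρ² > 0`; `G` is bounded, so in `L²(-a,a)`, `∫|G|² ≤ 2aB²`, and `Gρ ∈ L¹`.
Cauchy-Schwarz: `|γ|²w = |∫Gρ|²/w ≤ ∫|G|² ≤ 2aB²`. `∫(G - γρ)ρ = ∫Gρ - γw = 0`, and
`∫|G - γρ|² = ∫|G|² - |γ|²w ≤ 2aB²` (expand `|G - γρ|² = |G|² - 2Re(conj γ Gρ) + |γ|²ρ²`). -/
def S_GAM : Prop := ∀ (a B : ℝ) (ρ : ℝ → ℝ) (G : ℝ → ℂ), 0 < a → ContinuousOn ρ (Ioo (-a) a) →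
  (∀ x ∈ Ioo (-a) a, 0 < ρ x) → IntegrableOn (fun x => ρ x ^ 2) (Ioo (-a) a) →
  AEStronglyMeasurable G (volume.restrict (Ioo (-a) a)) → (∀ x ∈ Ioo (-a) a, ‖G x‖ ≤ B) →
  0 < ∫ x in Ioo (-a) a, ρ x ^ 2 ∧
  ‖pc a ρ G‖ ^ 2 * (∫ x in Ioo (-a) a, ρ x ^ 2) ≤ 2 * a * B ^ 2 ∧
  (∫ x in Ioo (-a) a, (G x - pc a ρ G * (ρ x : ℂ)) * (ρ x : ℂ)) = 0 ∧
  IntegrableOn (fun x => ‖G x - pc a ρ G * (ρ x : ℂ)‖ ^ 2) (Ioo (-a) a) ∧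
  ∫ x in Ioo (-a) a, ‖G x - pc a ρ G * (ρ x : ℂ)‖ ^ 2 ≤ 2 * a * B ^ 2

/-- (LUB) Local bound of the exponentials by the norms.
Proof. `δ = (a-b)/2`; `e^{-2φ} ≥ m > 0` on the compact interval `[-b-δ, b+δ]`. For `|σ| ≤ b`, by `e^x ≥ 1 + x`:
`∫_{σ-δ}^{σ+δ}e^{2nx}dx = e^{2nσ}∫_{-δ}^{δ}e^{2nx}dx ≥ 2δe^{2nσ}`, so `w_n ≥ ∫_{σ-δ}^{σ+δ}e^{2nx-2φ(x)}dx ≥ m2δe^{2nσ}`; `C = 1/(2δm)`. -/
def S_LUB : Prop := ∀ (a b : ℝ) (φ : ℝ → ℝ), 0 < b → b < a → ContinuousOn φ (Ioo (-a) a) →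
  (∀ n : ℤ, IntegrableOn (fun σ => rhon φ n σ ^ 2) (Ioo (-a) a)) →
  ∃ C : ℝ, 0 < C ∧ ∀ (n : ℤ) (σ : ℝ), |σ| ≤ b → Real.exp (n * σ) ^ 2 ≤ C * wn a φ n

/-- (HOLO) Series of exponentials.
Proof. With `j + 2` in place of `j` the hypothesis gives `‖c n (n)^k e^{nw}‖ ≤ C(1+|n|)^{-2}` for `|re w| ≤ b`: summable, locally
uniformly. `differentiableOn_tsum_of_summable_norm` and `hasSum_deriv_of_summable_norm` (on the open set `|re w| < b`) applied to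
`c n * n^k` for every `k`; induction on `k` for `deriv^[k]` (the derivatives are computed on the open strip, so use
`Filter.EventuallyEq.deriv_eq`). Periodicity: `e^{n(w+2πi)} = e^{nw}`. -/
def S_HOLO : Prop := ∀ (a : ℝ) (c : ℤ → ℂ), 0 < a →
  (∀ b, 0 < b → b < a → ∀ j : ℕ, ∃ C : ℝ, ∀ (n : ℤ) (σ : ℝ), |σ| ≤ b →
    ‖c n‖ * Real.exp (n * σ) * (1 + |(n : ℝ)|) ^ j ≤ C) →
  DifferentiableOn ℂ (gser c) (strip a) ∧
  (∀ w, gser c (w + 2 * Real.pi * Complex.I) = gser c w) ∧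
  ∀ (k : ℕ), ∀ w ∈ strip a,
    HasSum (fun n : ℤ => c n * (n : ℂ) ^ k * Complex.exp (n * w)) (deriv^[k] (gser c) w)

/-- (BDX) The `L²` bound.
Proof. Cauchy-Schwarz: `‖G w‖² ≤ S ∑_n (1+n²)n^{2k}‖c_n‖²e^{2nσ}`, `S = ∑(1+n²)⁻¹` (in `[0,∞]`). Multiply by `e^{-2φ(σ)}` and
integrate over `SB a T` (Tonelli; `∫_{|t|<T} = 2T`; `Complex.measurableEquivRealProd` is volume preserving):
`∫_{SB}e^{-2φ}‖G‖² ≤ 2TS ∑_n (1+n²)n^{2k}‖c_n‖²w_n`. The term `n = 0` is `≤ 2aM0²`, the terms `n ≠ 0` are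
`≤ 2n²·n^{2k}·2aM1²/n^{2k+4} = 4aM1²/n²`; `C = 2TS(2a + 4a∑_{n≠0}n⁻²)`. (Measurability: `G`, `φ` continuous on the strip.) -/
def S_BDX : Prop := ∀ (a : ℝ) (k : ℕ) (T : ℝ), 0 < a → 0 < T → ∃ C : ℝ, 0 ≤ C ∧
  ∀ (φ : ℝ → ℝ) (c : ℤ → ℂ) (G : ℂ → ℂ) (M0 M1 : ℝ), ContinuousOn φ (Ioo (-a) a) →
    (∀ n : ℤ, IntegrableOn (fun σ => rhon φ n σ ^ 2) (Ioo (-a) a)) → ContinuousOn G (strip a) →
    (∀ w ∈ strip a, HasSum (fun n : ℤ => c n * (n : ℂ) ^ k * Complex.exp (n * w)) (G w)) →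
    (∀ n : ℤ, ‖c n‖ ^ 2 * wn a φ n ≤ 2 * a * M0 ^ 2) →
    (∀ n : ℤ, |(n : ℝ)| ^ (2 * k + 4) * (‖c n‖ ^ 2 * wn a φ n) ≤ 2 * a * M1 ^ 2) →
    IntegrableOn (fun w : ℂ => (Real.exp (-(φ w.re)) * ‖G w‖) ^ 2) (SB a T) ∧
    ∫ w in SB a T, (Real.exp (-(φ w.re)) * ‖G w‖) ^ 2 ≤ C * (M0 ^ 2 + M1 ^ 2)

/-- (ETA) Fourier coefficients of a periodic holomorphic function.
Proof. `H(w) = h(w)e^{-nw}` is holomorphic and `2πi`-periodic on the strip, and `fc h n σ = e^{nσ}(2π)⁻¹∫_0^{2π}H(σ+it)dt`.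
The last integral does not depend on `σ`: `Complex.integral_boundary_rect_eq_zero_of_differentiableOn` for the rectangle
`[σ,σ'] × [0,2π]`, the two horizontal sides cancel by periodicity. -/
def S_ETA : Prop := ∀ (a : ℝ) (h : ℂ → ℂ), 0 < a → DifferentiableOn ℂ h (strip a) →
  (∀ w ∈ strip a, h (w + 2 * Real.pi * Complex.I) = h w) →
  ∀ n : ℤ, ∃ η : ℂ, ∀ σ, |σ| < a → fc h n σ = η * (Real.exp (n * σ) : ℂ)

/-- (FCM) Measurability of the Fourier coefficients.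
Proof. `(σ,t) ↦ F(σ+it)e^{-int}` is AEStronglyMeasurable on `(-a,a) × (0,2π]` (`Complex.volume_preserving_equiv_real_prod`,
restriction), and `AEStronglyMeasurable.integral_prod_right'`. -/
def S_FCM : Prop := ∀ (a : ℝ) (F : ℂ → ℂ), 0 < a → AEStronglyMeasurable F (muS a) →
  ∀ n : ℤ, AEStronglyMeasurable (fc F n) (volume.restrict (Ioo (-a) a))

/-- (ITC) Interchange of sum and integral.
Proof. `f_n(w) = D_n(re w)e^{i n im w} conj(H w)`. On the cell (measure `(-a,a) × [0,2π)`) the function `D_n(re w)` is in `L²` with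
norm² `≤ 2πb_n²` (Fubini), so `∫_{cell}‖f_n‖ ≤ √(2π)b_n‖H‖_{L²(cell)}` (Cauchy-Schwarz/Hölder), summable in `n`:
`hasSum_integral_of_summable_integral_norm` gives `∫_{cell} D conj H = ∑_n ∫_{cell} f_n`. By Fubini
`∫_{cell}f_n = ∫_{-a}^a D_n(σ) conj(∫_0^{2π}H(σ+it)e^{-int}dt)dσ = 2π∫D_n conj(fc H n) = 0`. -/
def S_ITC : Prop := ∀ (a : ℝ) (D H : ℂ → ℂ) (Dn : ℤ → ℝ → ℂ) (b : ℤ → ℝ), 0 < a →
  (∀ w ∈ strip a, HasSum (fun n : ℤ => Dn n w.re * Complex.exp (Complex.I * n * w.im)) (D w)) →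
  (∀ n, AEStronglyMeasurable (Dn n) (volume.restrict (Ioo (-a) a))) →
  (∀ n, 0 ≤ b n) → Summable b →
  (∀ n, IntegrableOn (fun σ => ‖Dn n σ‖ ^ 2) (Ioo (-a) a) ∧
    ∫ σ in Ioo (-a) a, ‖Dn n σ‖ ^ 2 ≤ b n ^ 2) →
  MemLp H 2 (volume.restrict (cell a)) →
  (∀ n, ∫ σ in Ioo (-a) a, Dn n σ * (starRingEnd ℂ) (fc H n σ) = 0) →
  ∫ w in cell a, D w * (starRingEnd ℂ) (H w) = 0

end Pool.Agent.Helper95.AB
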